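import Mathlib

/-! Coefficients of self-dual polynomials and sums over roots of unity. -/

set_option autoImplicit false

namespace Pool.Agent.K4H65.EP

open Polynomial ComplexConjugate

/-- the coefficient at an integer -/
noncomputable def cz (P : ℂ[X]) (t : ℤ) : ℂ := if 0 ≤ t then P.coeff t.toNat else 0

/-- self-dual polynomials of degree `2 D` -/
def Pal (D : ℕ) (P : ℂ[X]) : Prop :=
  P.natDegree ≤ 2 * D ∧ ∀ z : ℂ, ‖z‖ = 1 → conj (P.eval z) * z ^ (2 * D) = P.eval z

theorem Pal.one : Pal 0 1 := ⟨by simp, fun z _ => by simp⟩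

theorem Pal.mul {D D' : ℕ} {P P' : ℂ[X]} (h : Pal D P) (h' : Pal D' P') :
    Pal (D + D') (P * P') := by
  refine ⟨(natDegree_mul_le).trans (by have := h.1; have := h'.1; omega), fun z hz => ?_⟩
  rw [eval_mul, map_mul]
  conv_rhs => rw [← h.2 z hz, ← h'.2 z hz]
  rw [show 2 * (D + D') = 2 * D + 2 * D' by ring, pow_add]
  ring

theorem Pal.pow {D : ℕ} {P : ℂ[X]} (h : Pal D P) (n : ℕ) : Pal (n * D) (P ^ n) := by
  induction n with
  | zero => simpa using Pal.one
  | succ n ih =>
    rw [pow_succ, Nat.succ_mul]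
    exact ih.mul h

theorem Pal.prod {ι : Type*} (S : Finset ι) (n D : ι → ℕ) {P : ι → ℂ[X]}
    (h : ∀ s ∈ S, Pal (D s) (P s)) : Pal (∑ s ∈ S, n s * D s) (∏ s ∈ S, P s ^ n s) := by
  classical
  induction S using Finset.induction_on with
  | empty => simpa using Pal.one
  | insert a S ha ih =>
    rw [Finset.sum_insert ha, Finset.prod_insert ha]
    exact ((h a (Finset.mem_insert_self a S)).pow (n a)).mul
      (ih fun s hs => h s (Finset.mem_insert_of_mem hs))

/-- polynomials with `c_{2D - k} = conj c_k` -/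
theorem Pal.of_coeff {D : ℕ} {P : ℂ[X]} (hd : P.natDegree ≤ 2 * D)
    (h : ∀ k ≤ 2 * D, P.coeff (2 * D - k) = conj (P.coeff k)) : Pal D P := by
  refine ⟨hd, fun z hz => ?_⟩
  have hlt : P.natDegree < 2 * D + 1 := by omega
  rw [eval_eq_sum_range' hlt, map_sum, Finset.sum_mul, ← Finset.sum_range_reflect]
  refine Finset.sum_congr rfl fun k hk => ?_
  have hk' : k ≤ 2 * D := by have := Finset.mem_range.1 hk; omega
  have e1 : 2 * D + 1 - 1 - k = 2 * D - k := by omega
  rw [e1, map_mul, ← h (2 * D - k) (by omega), show 2 * D - (2 * D - k) = k by omega, map_pow]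
  have e2 : z ^ (2 * D) = z ^ (2 * D - k) * z ^ k := by rw [← pow_add]; congr 1; omega
  have e3 : conj z * z = 1 := by
    rw [mul_comm, Complex.mul_conj, Complex.normSq_eq_norm_sq, hz]
    norm_num
  rw [e2]
  calc P.coeff k * (conj z) ^ (2 * D - k) * (z ^ (2 * D - k) * z ^ k)
      = P.coeff k * (conj z * z) ^ (2 * D - k) * z ^ k := by rw [mul_pow]; ring
    _ = _ := by rw [e3, one_pow, mul_one]

section grid
variable {M : ℕ} [NeZero M]

/-- the additive character -/
noncomputable abbrev ee (x : ZMod M) : ℂ := ZMod.stdAddChar (N := M) x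

theorem norm_ee (x : ZMod M) : ‖ee x‖ = 1 := AddChar.norm_apply _ _

theorem ee_pow (x : ZMod M) (i : ℕ) : ee x ^ i = ee ((i : ZMod M) * x) := by
  rw [ee, ee, ← AddChar.map_nsmul_eq_pow, nsmul_eq_mul]

theorem ee_add (x y : ZMod M) : ee (x + y) = ee x * ee y := AddChar.map_add_eq_mul _ _ _

theorem conj_ee (x : ZMod M) : conj (ee x) = ee (-x) := by
  rw [ee, ee, AddChar.map_neg_eq_conj]

theorem ee_neg_mul (x : ZMod M) : ee (-x) * ee x = 1 := by
  rw [← ee_add, neg_add_cancel]
  exact AddChar.map_zero_eq_one _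

theorem sum_ee (b : ZMod M) : ∑ x : ZMod M, ee (b * x) = if b = 0 then (M : ℂ) else 0 := by
  have h := AddChar.sum_mulShift (R := ZMod M) (ψ := ZMod.stdAddChar (N := M)) b
    (ZMod.isPrimitive_stdAddChar M)
  simp only [mul_comm b]
  refine h.trans ?_
  rw [ZMod.card]
  split_ifs <;> simp

/-- **Extraction of a coefficient.** -/
theorem extract {D : ℕ} {P : ℂ[X]} (hP : P.natDegree ≤ 2 * D) {t : ℤ} (h1 : t < M)
    (h2 : 2 * (D : ℤ) - t < M) :
    ∑ x : ZMod M, ee (-((t : ZMod M) * x)) * P.eval (ee x) = M * cz P t := by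
  have hlt : P.natDegree < 2 * D + 1 := by omega
  have e1 : ∀ x : ZMod M, ee (-((t : ZMod M) * x)) * P.eval (ee x) =
      ∑ i ∈ Finset.range (2 * D + 1), P.coeff i * ee ((((i : ℤ) - t : ℤ) : ZMod M) * x) := by
    intro x
    rw [eval_eq_sum_range' hlt, Finset.mul_sum]
    refine Finset.sum_congr rfl fun i _ => ?_
    rw [ee_pow, mul_left_comm, ← ee_add]
    congr 2
    push_cast
    ring
  simp only [e1]
  rw [Finset.sum_comm]
  simp only [← Finset.mul_sum, sum_ee]
  have e2 : ∀ i ∈ Finset.range (2 * D + 1), (P.coeff i *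
      if ((((i : ℤ) - t : ℤ) : ZMod M)) = 0 then (M : ℂ) else 0) =
      if (i : ℤ) = t then P.coeff i * M else 0 := by
    intro i hi
    have hi' : i ≤ 2 * D := by have := Finset.mem_range.1 hi; omega
    have e3 : ((((i : ℤ) - t : ℤ) : ZMod M)) = 0 ↔ (i : ℤ) = t := by
      rw [ZMod.intCast_zmod_eq_zero_iff_dvd]
      constructor
      · rintro ⟨c, hc⟩
        have hM : (0 : ℤ) < M := by exact_mod_cast Nat.pos_of_ne_zero (NeZero.ne M)
        have h3 : (i : ℤ) - t < M := by omega
        have h4 : -(M : ℤ) < (i : ℤ) - t := by omega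
        have h5 : c < 1 := by
          by_contra h
          push Not at h
          nlinarith
        have h6 : -1 < c := by
          by_contra h
          push Not at h
          nlinarith
        have h7 : c = 0 := by omega
        rw [h7, mul_zero] at hc
        omega
      · intro h
        rw [h, sub_self]
        exact dvd_zero _
    simp only [e3]
    split_ifs <;> simp
  rw [Finset.sum_congr rfl e2]
  unfold cz
  by_cases ht : 0 ≤ t
  · rw [if_pos ht]
    by_cases ht2 : t.toNat < 2 * D + 1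
    · rw [Finset.sum_eq_single t.toNat]
      · rw [if_pos (Int.toNat_of_nonneg ht), mul_comm]
      · intro i _ hi
        rw [if_neg]
        intro h
        apply hi
        rw [← h]
        simp
      · intro h
        exact absurd (Finset.mem_range.2 ht2) h
    · rw [Finset.sum_eq_zero, coeff_eq_zero_of_natDegree_lt (by omega), mul_zero]
      intro i hi
      rw [if_neg]
      intro h
      have := Finset.mem_range.1 hi
      omega
  · rw [if_neg ht, mul_zero]
    refine Finset.sum_eq_zero fun i _ => ?_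
    rw [if_neg]
    omega

/-- the real function of a self-dual polynomial -/
noncomputable def ff (D : ℕ) (P : ℂ[X]) (x : ZMod M) : ℂ := ee (-((D : ZMod M) * x)) * P.eval (ee x)

theorem conj_ff {D : ℕ} {P : ℂ[X]} (h : Pal D P) (x : ZMod M) : conj (ff D P x) = ff D P x := by
  have h1 := h.2 (ee x) (norm_ee x)
  rw [ee_pow] at h1
  unfold ff
  rw [map_mul, conj_ee, neg_neg]
  calc ee ((D : ZMod M) * x) * conj (P.eval (ee x)) =
      ee (-((D : ZMod M) * x)) * (conj (P.eval (ee x)) * ee (((2 * D : ℕ) : ZMod M) * x)) := by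
        have e1 : ee ((D : ZMod M) * x) =
            ee (-((D : ZMod M) * x)) * ee (((2 * D : ℕ) : ZMod M) * x) := by
          rw [← ee_add]
          congr 1
          push_cast
          ring
        rw [e1]
        ring
    _ = _ := by rw [h1]

theorem ff_mul (D D' : ℕ) (P P' : ℂ[X]) (x : ZMod M) :
    ff (D + D') (P * P') x = ff D P x * ff D' P' x := by
  unfold ff
  rw [eval_mul, show -(((D + D' : ℕ) : ZMod M) * x) = -((D : ZMod M) * x) + -((D' : ZMod M) * x) by
    push_cast; ring, ee_add]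
  ring

theorem ff_pow (D : ℕ) (P : ℂ[X]) (n : ℕ) (x : ZMod M) :
    ff (n * D) (P ^ n) x = ff D P x ^ n := by
  induction n with
  | zero => simp [ff]
  | succ n ih => rw [Nat.succ_mul, pow_succ, pow_succ, ff_mul, ih]

theorem extract_ff {D : ℕ} {P : ℂ[X]} (hP : P.natDegree ≤ 2 * D) {j : ℤ}
    (h : (D : ℤ) + |j| < M) :
    ∑ x : ZMod M, ee (-((j : ZMod M) * x)) * ff D P x = M * cz P (D + j) := by
  rw [← extract (t := (D : ℤ) + j) hP (by have := le_abs_self j; omega)
    (by have := neg_abs_le j; omega)]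
  refine Finset.sum_congr rfl fun x _ => ?_
  unfold ff
  rw [← mul_assoc, ← ee_add]
  congr 2
  push_cast
  ring

end grid

/-- **Positivity.** -/
theorem psd {l : Type*} [Fintype l] {P : l → ℂ[X]} {D : l → ℕ} (h : ∀ a, Pal (D a) (P a))
    (j : l → ℤ) (c : l → ℝ) :
    0 ≤ (∑ a, ∑ b, (c a * c b : ℝ) * cz (P a * P b) ((D a + D b : ℕ) + (j a - j b))).re := by
  classical
  obtain ⟨M, hM⟩ : ∃ M : ℕ, ∀ a b, ((D a + D b : ℕ) : ℤ) + |j a - j b| < M := by
    refine ⟨(∑ a : l, ∑ b : l, ((D a + D b : ℕ) + (j a - j b).natAbs)) + 1, fun a b => ?_⟩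
    have h1 : ((D a + D b : ℕ) + (j a - j b).natAbs) ≤
        ∑ a : l, ∑ b : l, ((D a + D b : ℕ) + (j a - j b).natAbs) :=
      (Finset.single_le_sum (f := fun b => ((D a + D b : ℕ) + (j a - j b).natAbs))
        (fun _ _ => Nat.zero_le _) (Finset.mem_univ b)).trans
      (Finset.single_le_sum (f := fun a => ∑ b : l, ((D a + D b : ℕ) + (j a - j b).natAbs))
        (fun _ _ => Nat.zero_le _) (Finset.mem_univ a))
    have h2 : |j a - j b| = ((j a - j b).natAbs : ℤ) := (Int.natCast_natAbs _).symm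
    rw [h2]
    exact_mod_cast Nat.lt_succ_of_le h1
  rcases isEmpty_or_nonempty l with hl | ⟨⟨a₀⟩⟩
  · simp
  have hM0 : 0 < M := by
    have h1 := hM a₀ a₀
    have h2 := abs_nonneg (j a₀ - j a₀)
    have : (0 : ℤ) < M := by
      have h3 : (0 : ℤ) ≤ ((D a₀ + D a₀ : ℕ) : ℤ) := Int.natCast_nonneg _
      omega
    exact_mod_cast this
  haveI : NeZero M := ⟨hM0.ne'⟩
  have key : (M : ℂ) * ∑ a, ∑ b, (c a * c b : ℝ) * cz (P a * P b) ((D a + D b : ℕ) + (j a - j b)) =
      ∑ x : ZMod M, ((‖∑ a, (c a : ℂ) * ee (-((j a : ZMod M) * x)) * ff (D a) (P a) x‖ ^ 2 : ℝ) :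
        ℂ) := by
    have e1 : ∀ x : ZMod M,
        ((‖∑ a, (c a : ℂ) * ee (-((j a : ZMod M) * x)) * ff (D a) (P a) x‖ ^ 2 : ℝ) : ℂ) =
        ∑ a, ∑ b, (c a * c b : ℝ) * (ee (-(((j a - j b : ℤ) : ZMod M) * x)) *
          ff (D a + D b) (P a * P b) x) := by
      intro x
      rw [Complex.ofReal_pow, ← Complex.mul_conj', map_sum, Finset.sum_mul_sum]
      refine Finset.sum_congr rfl fun a _ => Finset.sum_congr rfl fun b _ => ?_
      rw [map_mul, map_mul, Complex.conj_ofReal, conj_ee, neg_neg, conj_ff (h b), ff_mul]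
      have e2 : ee (-(((j a - j b : ℤ) : ZMod M) * x)) =
          ee (-((j a : ZMod M) * x)) * ee ((j b : ZMod M) * x) := by
        rw [← ee_add]
        congr 1
        push_cast
        ring
      rw [e2]
      push_cast
      ring
    rw [Finset.sum_congr rfl fun x _ => e1 x, Finset.mul_sum]
    conv_rhs => rw [Finset.sum_comm]
    refine Finset.sum_congr rfl fun a _ => ?_
    rw [Finset.mul_sum]
    conv_rhs => rw [Finset.sum_comm]
    refine Finset.sum_congr rfl fun b _ => ?_
    rw [← Finset.mul_sum, extract_ff ((h a).mul (h b)).1 (hM a b)]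
    ring
  have h2 : 0 ≤ ((M : ℂ) * ∑ a, ∑ b, (c a * c b : ℝ) *
      cz (P a * P b) ((D a + D b : ℕ) + (j a - j b))).re := by
    rw [key, ← Complex.ofReal_sum, Complex.ofReal_re]
    exact Finset.sum_nonneg fun x _ => by positivity
  have e3 : ((M : ℂ)) = ((M : ℝ) : ℂ) := by simp
  rw [e3, Complex.re_ofReal_mul] at h2
  have hMr : (0 : ℝ) < M := by exact_mod_cast hM0
  exact nonneg_of_mul_nonneg_right h2 hMr

/-- the lowest and the highest coefficient are `1` -/
def Mon (D : ℕ) (P : ℂ[X]) : Prop := P.coeff 0 = 1 ∧ P.coeff (2 * D) = 1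

theorem Mon.one : Mon 0 1 := by simp [Mon]

theorem Mon.mul {D D' : ℕ} {P P' : ℂ[X]} (h : Mon D P) (h' : Mon D' P') (hP : Pal D P)
    (hP' : Pal D' P') : Mon (D + D') (P * P') := by
  refine ⟨by rw [mul_coeff_zero, h.1, h'.1, one_mul], ?_⟩
  rw [show 2 * (D + D') = 2 * D + 2 * D' by ring, coeff_mul_add_eq_of_natDegree_le hP.1 hP'.1,
    h.2, h'.2, one_mul]

theorem Mon.pow {D : ℕ} {P : ℂ[X]} (h : Mon D P) (hP : Pal D P) (n : ℕ) :
    Mon (n * D) (P ^ n) := by
  induction n with
  | zero => simpa using Mon.one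
  | succ n ih =>
    rw [pow_succ, Nat.succ_mul]
    exact ih.mul h (hP.pow n) hP

theorem Mon.prod {ι : Type*} (S : Finset ι) (n D : ι → ℕ) {P : ι → ℂ[X]}
    (h : ∀ s ∈ S, Mon (D s) (P s)) (hP : ∀ s ∈ S, Pal (D s) (P s)) :
    Mon (∑ s ∈ S, n s * D s) (∏ s ∈ S, P s ^ n s) := by
  classical
  induction S using Finset.induction_on with
  | empty => simpa using Mon.one
  | insert a S ha ih =>
    rw [Finset.sum_insert ha, Finset.prod_insert ha]
    exact ((h a (Finset.mem_insert_self a S)).pow (hP a (Finset.mem_insert_self a S)) (n a)).mul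
      (ih (fun s hs => h s (Finset.mem_insert_of_mem hs))
        fun s hs => hP s (Finset.mem_insert_of_mem hs))
      ((hP a (Finset.mem_insert_self a S)).pow (n a))
      (Pal.prod S n D fun s hs => hP s (Finset.mem_insert_of_mem hs))

theorem coeff_binom {D : ℕ} (hD : 1 ≤ D) (k : ℕ) :
    (((1 : ℂ[X]) + X ^ (2 * D)) ^ (2 * k)).coeff (2 * k * D) = ((2 * k).choose k : ℂ) := by
  have h1 : ((1 : ℂ[X]) + X ^ (2 * D)) ^ (2 * k) =
      expand ℂ (2 * D) (((1 : ℂ[X]) + X) ^ (2 * k)) := by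
    rw [map_pow, map_add, expand_X, map_one]
  rw [h1, show 2 * k * D = k * (2 * D) by ring, coeff_expand_mul (by omega), coeff_one_add_X_pow]

theorem sum_sign {M D L : ℕ} [NeZero M] (hD : 1 ≤ D) (hM : M = 2 * D * L) {P : ℂ[X]}
    (h : Pal D P) (h1 : Mon D P) (x : ZMod M) :
    ∑ t ∈ Finset.range (2 * D), (-1 : ℂ) ^ t * ff D P (x + ((t * L : ℕ) : ZMod M)) =
      2 * D * ff D (1 + X ^ (2 * D)) x := by
  have hM0 : 0 < M := Nat.pos_of_ne_zero (NeZero.ne M)
  have hL : 0 < L := by
    rcases Nat.eq_zero_or_pos L with h0 | h0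
    · rw [h0, mul_zero] at hM
      omega
    · exact h0
  have hinj : Function.Injective (ZMod.stdAddChar (N := M)) := ZMod.injective_stdAddChar
  have e0 : ee (0 : ZMod M) = 1 := AddChar.map_zero_eq_one _
  -- the value at `L D`
  have hm1 : ee ((L * D : ℕ) : ZMod M) = -1 := by
    have h2 : ee ((L * D : ℕ) : ZMod M) ^ 2 = 1 := by
      rw [ee_pow]
      have : ((2 : ℕ) : ZMod M) * ((L * D : ℕ) : ZMod M) = 0 := by
        rw [← Nat.cast_mul, show 2 * (L * D) = M by rw [hM]; ring, ZMod.natCast_self]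
      rw [this, e0]
    rw [sq] at h2
    rcases mul_self_eq_one_iff.1 h2 with h3 | h3
    · exfalso
      have h4 : ((L * D : ℕ) : ZMod M) = 0 := hinj (h3.trans e0.symm)
      rw [ZMod.natCast_eq_zero_iff] at h4
      have h5 := Nat.le_of_dvd (by positivity) h4
      rw [hM] at h5
      nlinarith [Nat.mul_pos hL hD]
    · exact h3
  have hlt : P.natDegree < 2 * D + 1 := by have := h.1; omega
  have e1 : ∀ t : ℕ, (-1 : ℂ) ^ t * ff D P (x + ((t * L : ℕ) : ZMod M)) =
      ∑ i ∈ Finset.range (2 * D + 1), P.coeff i * ee (((i : ZMod M) - (D : ZMod M)) * x) *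
        ee ((L * i : ℕ) : ZMod M) ^ t := by
    intro t
    unfold ff
    rw [eval_eq_sum_range' hlt, Finset.mul_sum, Finset.mul_sum]
    refine Finset.sum_congr rfl fun i _ => ?_
    rw [← hm1, ee_pow, ee_pow, ee_pow]
    have e2 : ee (((i : ZMod M) - (D : ZMod M)) * x) * ee ((t : ZMod M) * ((L * i : ℕ) : ZMod M)) =
        ee ((t : ZMod M) * ((L * D : ℕ) : ZMod M)) *
          (ee (-((D : ZMod M) * (x + ((t * L : ℕ) : ZMod M)))) *
            ee ((i : ZMod M) * (x + ((t * L : ℕ) : ZMod M)))) := by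
      rw [← ee_add, ← ee_add, ← ee_add]
      congr 1
      push_cast
      ring
    rw [mul_assoc (P.coeff i), e2]
    ring
  rw [Finset.sum_congr rfl fun t _ => e1 t, Finset.sum_comm]
  simp only [← Finset.mul_sum]
  -- the geometric sums
  have e3 : ∀ i ∈ Finset.range (2 * D + 1), ∑ t ∈ Finset.range (2 * D),
      ee ((L * i : ℕ) : ZMod M) ^ t = if i = 0 ∨ i = 2 * D then (2 * D : ℂ) else 0 := by
    intro i hi
    have hi' : i ≤ 2 * D := by have := Finset.mem_range.1 hi; omega
    split_ifs with h2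
    · have h3 : ((L * i : ℕ) : ZMod M) = 0 := by
        rcases h2 with h2 | h2
        · rw [h2]
          simp
        · rw [h2, show L * (2 * D) = M by rw [hM]; ring, ZMod.natCast_self]
      rw [h3, e0]
      simp
    · push Not at h2
      have h3 : ee ((L * i : ℕ) : ZMod M) ≠ 1 := by
        intro h4
        have h5 : ((L * i : ℕ) : ZMod M) = 0 := hinj (h4.trans e0.symm)
        rw [ZMod.natCast_eq_zero_iff, hM, show 2 * D * L = L * (2 * D) by ring] at h5
        have h6 := Nat.dvd_of_mul_dvd_mul_left hL h5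
        have h7 := Nat.le_of_dvd (Nat.pos_of_ne_zero h2.1) h6
        exact h2.2 (le_antisymm hi' h7)
      rw [geom_sum_eq h3, ee_pow]
      have h4 : ((2 * D : ℕ) : ZMod M) * ((L * i : ℕ) : ZMod M) = 0 := by
        rw [← Nat.cast_mul, show 2 * D * (L * i) = M * i by rw [hM]; ring, Nat.cast_mul,
          ZMod.natCast_self, zero_mul]
      rw [h4, e0, sub_self, zero_div]
  rw [Finset.sum_congr rfl fun i hi => by rw [e3 i hi]]
  have e4 : ∀ i ∈ Finset.range (2 * D + 1), (P.coeff i * ee (((i : ZMod M) - (D : ZMod M)) * x) *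
      if i = 0 ∨ i = 2 * D then (2 * D : ℂ) else 0) =
      (if i = 0 then 2 * D * ee (-((D : ZMod M) * x)) else 0) +
      if i = 2 * D then 2 * D * ee ((D : ZMod M) * x) else 0 := by
    intro i _
    by_cases h2 : i = 0
    · have h3 : i ≠ 2 * D := by omega
      rw [if_pos (Or.inl h2), if_pos h2, if_neg h3, h2, h1.1]
      rw [Nat.cast_zero, zero_sub, neg_mul]
      ring
    · by_cases h3 : i = 2 * D
      · rw [if_pos (Or.inr h3), if_neg h2, if_pos h3, h3, h1.2]
        have : (((2 * D : ℕ) : ZMod M) - (D : ZMod M)) * x = (D : ZMod M) * x := by push_cast; ring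
        rw [this]
        ring
      · rw [if_neg (by push Not; exact ⟨h2, h3⟩), if_neg h2, if_neg h3]
        ring
  rw [Finset.sum_congr rfl e4, Finset.sum_add_distrib, Finset.sum_ite_eq' , Finset.sum_ite_eq',
    if_pos (Finset.mem_range.2 (by omega)), if_pos (Finset.mem_range.2 (by omega))]
  unfold ff
  rw [eval_add, eval_one, eval_pow, eval_X, ee_pow, mul_add, mul_one, ← ee_add]
  have e5 : -((D : ZMod M) * x) + ((2 * D : ℕ) : ZMod M) * x = (D : ZMod M) * x := by
    push_cast
    ring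
  rw [e5]
  ring

/-- **The lower bound.** -/
theorem lower {D : ℕ} (hD : 1 ≤ D) {P : ℂ[X]} (h : Pal D P) (h1 : Mon D P) (k : ℕ) :
    ((2 * k).choose k : ℝ) ≤ (cz (P ^ (2 * k)) ((2 * k * D : ℕ) : ℤ)).re := by
  obtain ⟨M, hM⟩ : ∃ M : ℕ, M = 2 * D * (k + 1) := ⟨_, rfl⟩
  have hM0 : 0 < M := by rw [hM]; positivity
  haveI : NeZero M := ⟨hM0.ne'⟩
  have hlt : 2 * k * D < M := by rw [hM]; nlinarith
  set Q : ℂ[X] := 1 + X ^ (2 * D) with hQ
  have hQP : Pal D Q := by
    refine Pal.of_coeff ?_ fun j hj => ?_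
    · refine (natDegree_add_le _ _).trans ?_
      rw [natDegree_one, natDegree_X_pow]
      simp
    · rw [hQ, coeff_add, coeff_add, coeff_one, coeff_one, coeff_X_pow, coeff_X_pow]
      by_cases h2 : j = 0
      · subst h2
        have h3 : 2 * D ≠ 0 := by omega
        simp [h3, Ne.symm h3]
      · by_cases h3 : j = 2 * D
        · subst h3
          have h4 : 2 * D ≠ 0 := by omega
          have h6 : D ≠ 0 := by omega
          simp [Ne.symm h4, h6]
        · have h4 : 2 * D - j ≠ 0 := by omega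
          have h5 : 2 * D - j ≠ 2 * D := by omega
          rw [if_neg h4, if_neg h5, if_neg h2, if_neg h3]
          simp
  -- real values
  have hre : ∀ (R : ℂ[X]) (_ : Pal D R) (x : ZMod M), ff D R x = ((ff D R x).re : ℂ) := by
    intro R hR x
    exact (Complex.conj_eq_iff_re.1 (conj_ff hR x)).symm
  have hsum : ∀ (R : ℂ[X]) (_ : Pal D R), ∑ x : ZMod M, (ff D R x).re ^ (2 * k) =
      M * (cz (R ^ (2 * k)) ((2 * k * D : ℕ) : ℤ)).re := by
    intro R hR
    have h2 := extract_ff (M := M) (hR.pow (2 * k)).1 (j := 0) (by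
      rw [abs_zero, add_zero]
      exact_mod_cast hlt)
    simp only [ff_pow] at h2
    have h3 := congrArg Complex.re h2
    rw [Complex.re_sum, add_zero] at h3
    have e3 : ((M : ℂ)) = ((M : ℝ) : ℂ) := by simp
    rw [e3, Complex.re_ofReal_mul] at h3
    rw [← h3]
    refine Finset.sum_congr rfl fun x _ => ?_
    have e0 : ee (-(((0 : ℤ) : ZMod M) * x)) = 1 := by
      rw [Int.cast_zero, zero_mul, neg_zero]
      exact AddChar.map_zero_eq_one _
    rw [e0, one_mul]
    conv_rhs => rw [hre R hR x]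
    rw [← Complex.ofReal_pow, Complex.ofReal_re]
  have hQs := hsum Q hQP
  have hPs := hsum P h
  have hc : (cz (Q ^ (2 * k)) ((2 * k * D : ℕ) : ℤ)).re = ((2 * k).choose k : ℝ) := by
    unfold cz
    rw [if_pos (Int.natCast_nonneg _), Int.toNat_natCast, hQ, coeff_binom hD, Complex.natCast_re]
  rw [hc] at hQs
  have hD' : (0 : ℝ) < 2 * D := by positivity
  -- convexity
  have hconv : ∀ x : ZMod M, (ff D Q x).re ^ (2 * k) ≤ ∑ t ∈ Finset.range (2 * D),
      (1 / (2 * D : ℝ)) * (ff D P (x + ((t * (k + 1) : ℕ) : ZMod M))).re ^ (2 * k) := by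
    intro x
    have h2 := congrArg Complex.re (sum_sign (L := k + 1) hD hM h h1 x)
    rw [Complex.re_sum] at h2
    have e3 : (2 * (D : ℂ)) = ((2 * D : ℝ) : ℂ) := by push_cast; ring
    rw [e3, Complex.re_ofReal_mul] at h2
    have e4 : ∀ t, ((-1 : ℂ) ^ t * ff D P (x + ((t * (k + 1) : ℕ) : ZMod M))).re =
        (-1 : ℝ) ^ t * (ff D P (x + ((t * (k + 1) : ℕ) : ZMod M))).re := by
      intro t
      rw [show (-1 : ℂ) ^ t = (((-1 : ℝ) ^ t : ℝ) : ℂ) by push_cast; ring,
        Complex.re_ofReal_mul]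
    simp only [e4] at h2
    have h3 : (ff D Q x).re = ∑ t ∈ Finset.range (2 * D), (1 / (2 * D : ℝ)) *
        ((-1 : ℝ) ^ t * (ff D P (x + ((t * (k + 1) : ℕ) : ZMod M))).re) := by
      rw [← Finset.mul_sum, h2, ← hQ]
      field_simp
    rw [h3]
    refine (Real.pow_arith_mean_le_arith_mean_pow_of_even (Finset.range (2 * D))
      (fun _ => 1 / (2 * D : ℝ)) _ (fun _ _ => by positivity) ?_ (even_two_mul k)).trans
      (le_of_eq ?_)
    · rw [Finset.sum_const, Finset.card_range, nsmul_eq_mul]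
      push_cast
      field_simp
    · refine Finset.sum_congr rfl fun t _ => ?_
      rw [mul_pow, ← pow_mul, mul_comm t, pow_mul, pow_mul, neg_one_sq, one_pow, one_pow, one_mul]
  have hfin : ∑ x : ZMod M, (ff D Q x).re ^ (2 * k) ≤ ∑ x : ZMod M, (ff D P x).re ^ (2 * k) := by
    refine (Finset.sum_le_sum fun x _ => hconv x).trans (le_of_eq ?_)
    rw [Finset.sum_comm]
    have e5 : ∀ t ∈ Finset.range (2 * D), ∑ x : ZMod M, (1 / (2 * D : ℝ)) *
        (ff D P (x + ((t * (k + 1) : ℕ) : ZMod M))).re ^ (2 * k) =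
        (1 / (2 * D : ℝ)) * ∑ x : ZMod M, (ff D P x).re ^ (2 * k) := by
      intro t _
      rw [← Finset.mul_sum]
      congr 1
      exact Fintype.sum_equiv (Equiv.addRight ((t * (k + 1) : ℕ) : ZMod M)) _ _ fun x => rfl
    rw [Finset.sum_congr rfl e5, Finset.sum_const, Finset.card_range, nsmul_eq_mul]
    push_cast
    field_simp
  rw [hQs, hPs] at hfin
  have hMr : (0 : ℝ) < M := by exact_mod_cast hM0
  exact le_of_mul_le_mul_left hfin hMr

end Pool.Agent.K4H65.EP
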