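import Pool.Agent.W353.EF.Defs

/-!
# Products of smooth projective varieties: definitions

A set `X` of homogeneous polynomials over `𝓞_K` gives a projective variety over the number field `K`;
`cone`, `IsFrobenius`, `IsEulerSystem`, `OrderOver` are the definitions of `W353.EF.Defs`.
-/

set_option autoImplicit false

namespace Pool.Agent.K4H65.EP

open NumberField IsDedekindDomain Filter
open Pool.Agent.W353.EF (cone OrderOver)

section
variable {K : Type} [Field K] [NumberField K]

/-- The multisets `β_0, …, β_{2d}` are the eigenvalues of the geometric Frobenius at the prime `v` on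
the cohomology of `X`, of dimension `d`: the elements of `β_k` have absolute value `q^{k/2}`, where
`q = q_v`, and for every finite extension `κ` of the residue field, of degree `e`, the number of the
points of `X` over `κ` is `∑_{k ≤ 2d} (-1)^k ∑_{z ∈ β_k} z^e` (`cone` is `q^e - 1` times this number).
By the theorem of Deligne such `β_k` exist at almost all primes if `X` is smooth; they are unique. -/
def IsWeil {n : ℕ} (X : Set (MvPolynomial (Fin n) (𝓞 K))) (d : ℕ) (v : HeightOneSpectrum (𝓞 K))
    (β : ℕ → Multiset ℂ) : Prop :=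
  (∀ k, ∀ z ∈ β k, ‖z‖ = (Ideal.absNorm v.asIdeal : ℝ) ^ ((k : ℝ) / 2)) ∧
    ∀ (κ : Type) [Field κ] [Finite κ] (φ : 𝓞 K →+* κ) (e : ℕ), RingHom.ker φ = v.asIdeal →
      Nat.card κ = Ideal.absNorm v.asIdeal ^ e →
      (cone X φ : ℂ) = ((Ideal.absNorm v.asIdeal : ℂ) ^ e - 1) *
        ∑ k ∈ Finset.range (2 * d + 1), (-1 : ℂ) ^ k * ((β k).map (fun z => z ^ e)).sum

/-- At almost all primes the eigenvalues exist and satisfy Poincaré duality: `z ↦ q^d / z` maps `β_k`
to `β_{2d-k}`.  This holds for every smooth projective variety `X` of pure dimension `d`. -/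
def IsSmooth {n : ℕ} (X : Set (MvPolynomial (Fin n) (𝓞 K))) (d : ℕ) : Prop :=
  ∀ᶠ v : HeightOneSpectrum (𝓞 K) in cofinite, ∃ β, IsWeil X d v β ∧
    ∀ k ≤ 2 * d, β (2 * d - k) = (β k).map fun z => (Ideal.absNorm v.asIdeal : ℂ) ^ d / z

/-- At almost all primes `1` is the only eigenvalue on `H^0`, with multiplicity one.  This holds if
`X` is smooth, projective and geometrically connected. -/
def IsConn {n : ℕ} (X : Set (MvPolynomial (Fin n) (𝓞 K))) (d : ℕ) : Prop :=
  ∀ᶠ v : HeightOneSpectrum (𝓞 K) in cofinite, ∃ β, IsWeil X d v β ∧ β 0 = {1}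

/-- `W` is a model of the product of the powers `Y_s^{n_s}`, `s = 1, …, r`, for example given by the
Segre embedding: at almost all primes it has the same number of points as this product, over all
finite extensions of the residue field. -/
def IsProduct {r : ℕ} {a : Fin r → ℕ} (Y : (s : Fin r) → Set (MvPolynomial (Fin (a s)) (𝓞 K)))
    (n : Fin r → ℕ) {b : ℕ} (W : Set (MvPolynomial (Fin b) (𝓞 K))) : Prop :=
  ∀ᶠ v : HeightOneSpectrum (𝓞 K) in cofinite, ∀ (κ : Type) [Field κ] [Finite κ] (φ : 𝓞 K →+* κ),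
    RingHom.ker φ = v.asIdeal →
      cone W φ * ∏ s, (Nat.card κ - 1) ^ n s = (Nat.card κ - 1) * ∏ s, cone (Y s) φ ^ n s

/-- The dimension of the product of the `Y_s^{n_s}`, for varieties `Y_s` of dimension `d_s`. -/
def dim {r : ℕ} (d n : Fin r → ℕ) : ℕ := ∑ s, n s * d s

/-- Let `W` be the product of the `Y_s^{n_s}`, of dimension `D`.  The function `L(H^{D+j}(W), s)` has
a meromorphic continuation to a neighbourhood of the edge point `(D+j)/2 + 1`, of order `m` there.  It
vanishes at the edge if and only if `m > 0`.  (For `|j| > D` the group `H^{D+j}` is zero and `m = 0`.) -/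
def Ord {r : ℕ} {a : Fin r → ℕ} (Y : (s : Fin r) → Set (MvPolynomial (Fin (a s)) (𝓞 K)))
    (d n : Fin r → ℕ) (j m : ℤ) : Prop :=
  ((dim d n : ℤ) < |j| ∧ m = 0) ∨
  ∃ (b : ℕ) (W : Set (MvPolynomial (Fin b) (𝓞 K))) (i N : ℕ), IsProduct Y n W ∧
    (i : ℤ) = dim d n + j ∧ i ≤ 2 * dim d n ∧ OrderOver W (dim d n) i N K m

end

end Pool.Agent.K4H65.EP
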