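import Pool.Agent.K4H65.EP.Trace

/-! Orders at the edge for products of varieties. -/

set_option autoImplicit false

namespace Pool.Agent.K4H65.EP

open Complex Filter Topology ComplexConjugate NumberField IsDedekindDomain Polynomial

theorem cz_symm {D : ℕ} {P : ℂ[X]} (h : Pal D P) (j : ℤ) :
    cz P (D - j) = conj (cz P (D + j)) := by
  obtain ⟨M, hM⟩ : ∃ M : ℕ, M = D + j.natAbs + 1 := ⟨_, rfl⟩
  have hM0 : 0 < M := by omega
  haveI : NeZero M := ⟨hM0.ne'⟩
  have hj : |j| = (j.natAbs : ℤ) := (Int.natCast_natAbs j).symm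
  have h1 := extract_ff (M := M) h.1 (j := j) (by rw [hj, hM]; push_cast; omega)
  have h2 := extract_ff (M := M) h.1 (j := -j) (by rw [abs_neg, hj, hM]; push_cast; omega)
  have h3 := congrArg conj h1
  rw [map_sum, map_mul, Complex.conj_natCast] at h3
  have h4 : ∑ x : ZMod M, conj (ee (-((j : ZMod M) * x)) * ff D P x) =
      ∑ x : ZMod M, ee (-(((-j : ℤ) : ZMod M) * x)) * ff D P x := by
    refine Finset.sum_congr rfl fun x _ => ?_
    rw [map_mul, conj_ff h, conj_ee]
    congr 2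
    push_cast
    ring
  rw [h4, h2] at h3
  have hMc : (M : ℂ) ≠ 0 := by exact_mod_cast hM0.ne'
  have h5 := mul_left_cancel₀ hMc h3
  rw [← h5]
  rfl

theorem cz_abs_le {D : ℕ} {P : ℂ[X]} (h : Pal D P) (j : ℤ) :
    |(cz (P * P) ((D + D : ℕ) + j)).re| ≤ (cz (P * P) ((D + D : ℕ) : ℤ)).re := by
  have hs := cz_symm (h.mul h) j
  have key : ∀ c : ℝ, c ^ 2 = 1 → 0 ≤ (cz (P * P) ((D + D : ℕ) : ℤ)).re +
      c * (cz (P * P) ((D + D : ℕ) + j)).re := by
    intro c hc
    have h1 := psd (l := Fin 2) (P := fun _ => P) (D := fun _ => D) (fun _ => h)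
      ![j, 0] ![c, 1]
    simp only [Fin.sum_univ_two, Matrix.cons_val_zero, Matrix.cons_val_one, sub_self, sub_zero,
      zero_sub, add_zero, mul_one, one_mul] at h1
    rw [← sub_eq_add_neg, hs] at h1
    simp only [Complex.add_re, Complex.re_ofReal_mul, Complex.conj_re] at h1
    rw [← sq, hc] at h1
    linarith
  rw [abs_le]
  have h1 := key 1 (by norm_num)
  have h2 := key (-1) (by norm_num)
  constructor <;> linarith

theorem cz_one (j : ℤ) : cz 1 j = if j = 0 then 1 else 0 := by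
  unfold cz
  by_cases h : 0 ≤ j
  · rw [if_pos h, coeff_one]
    congr 1
    simp only [eq_iff_iff]
    omega
  · rw [if_neg h, if_neg (by omega)]

theorem bessel {D : ℕ} {P : ℂ[X]} (h : Pal D P) (J : Finset ℤ) (μ : ℤ → ℝ) :
    2 * ∑ j ∈ J, μ j * (cz P (D + j)).re - ∑ j ∈ J, μ j ^ 2 ≤
      (cz (P * P) ((D + D : ℕ) : ℤ)).re := by
  classical
  have h1 := psd (l := Option J) (P := fun o => o.elim P fun _ => 1)
    (D := fun o => o.elim D fun _ => 0) (fun o => by
      cases o with
      | none => exact h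
      | some j => exact Pal.one) (fun o => o.elim 0 fun j => -(j : ℤ))
    (fun o => o.elim 1 fun j => -μ j)
  simp only [Fintype.sum_option, Option.elim_none, Option.elim_some, one_mul, mul_one, sub_self,
    add_zero, zero_add, sub_neg_eq_add, zero_sub, sub_zero, Nat.cast_zero, cz_one, Complex.add_re,
    Complex.re_sum, Complex.re_ofReal_mul] at h1
  have e1 : ∀ x : J, (cz P ((D : ℤ) + -(x : ℤ))).re = (cz P ((D : ℤ) + (x : ℤ))).re := by
    intro x
    rw [← sub_eq_add_neg, cz_symm h, Complex.conj_re]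
  have e2 : ∀ x : J, ∑ y : J, -μ x * -μ y * (if -(x : ℤ) + (y : ℤ) = 0 then (1 : ℂ) else 0).re =
      μ x ^ 2 := by
    intro x
    rw [Finset.sum_eq_single x]
    · rw [if_pos (by ring), Complex.one_re]
      ring
    · intro y _ hy
      rw [if_neg, Complex.zero_re, mul_zero]
      intro h0
      exact hy (Subtype.ext (by omega))
    · intro h0
      exact absurd (Finset.mem_univ x) h0
  simp only [e1, e2, Finset.sum_add_distrib] at h1
  have e3 : ∑ x : J, -μ x * (cz P ((D : ℤ) + (x : ℤ))).re =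
      -∑ j ∈ J, μ j * (cz P (D + j)).re := by
    rw [← Finset.sum_coe_sort J (fun j => μ j * (cz P (D + j)).re), ← Finset.sum_neg_distrib]
    exact Finset.sum_congr rfl fun x _ => by ring
  have e4 : ∑ x : J, μ x ^ 2 = ∑ j ∈ J, μ j ^ 2 := Finset.sum_coe_sort J (fun j => μ j ^ 2)
  rw [e3, e4] at h1
  linarith

section
variable {K : Type} [Field K] [NumberField K] {r : ℕ} {a : Fin r → ℕ}
  {Y : (s : Fin r) → Set (MvPolynomial (Fin (a s)) (𝓞 K))} {d : Fin r → ℕ}

/-- the polynomial of the product -/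
noncomputable def PP (Y : (s : Fin r) → Set (MvPolynomial (Fin (a s)) (𝓞 K))) (d n : Fin r → ℕ)
    (v : HeightOneSpectrum (𝓞 K)) : ℂ[X] := ∏ s, uu (Y s) (d s) v ^ n s

theorem PP_add (n n' : Fin r → ℕ) (v : HeightOneSpectrum (𝓞 K)) :
    PP Y d (n + n') v = PP Y d n v * PP Y d n' v := by
  unfold PP
  rw [← Finset.prod_mul_distrib]
  exact Finset.prod_congr rfl fun s _ => by rw [Pi.add_apply, pow_add]

theorem PP_smul (k : ℕ) (n : Fin r → ℕ) (v : HeightOneSpectrum (𝓞 K)) :
    PP Y d (k • n) v = PP Y d n v ^ k := by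
  unfold PP
  rw [← Finset.prod_pow]
  exact Finset.prod_congr rfl fun s _ => by rw [Pi.smul_apply, smul_eq_mul, mul_comm, pow_mul]

theorem dim_add (n n' : Fin r → ℕ) : dim d (n + n') = dim d n + dim d n' := by
  unfold dim
  rw [← Finset.sum_add_distrib]
  exact Finset.sum_congr rfl fun s _ => by rw [Pi.add_apply, add_mul]

theorem dim_smul (k : ℕ) (n : Fin r → ℕ) : dim d (k • n) = k * dim d n := by
  unfold dim
  rw [Finset.mul_sum]
  exact Finset.sum_congr rfl fun s _ => by rw [Pi.smul_apply, smul_eq_mul, mul_assoc]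

theorem pal_ev (hY : ∀ s, IsSmooth (Y s) (d s)) :
    ∀ᶠ v : HeightOneSpectrum (𝓞 K) in cofinite, ∀ n, Pal (dim d n) (PP Y d n v) := by
  have hall : ∀ᶠ v : HeightOneSpectrum (𝓞 K) in cofinite, ∀ s, Pal (d s) (uu (Y s) (d s) v) := by
    rw [Filter.eventually_all]
    exact fun s => (hY s).mono fun v hv => uu_pal hv.choose_spec.1 hv.choose_spec.2
  exact hall.mono fun v hv n => Pal.prod _ n d fun s _ => hv s

theorem mon_ev (hY : ∀ s, IsSmooth (Y s) (d s)) (hC : ∀ s, IsConn (Y s) (d s)) :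
    ∀ᶠ v : HeightOneSpectrum (𝓞 K) in cofinite, ∀ n, Mon (dim d n) (PP Y d n v) := by
  have hall : ∀ᶠ v : HeightOneSpectrum (𝓞 K) in cofinite, ∀ s, Mon (d s) (uu (Y s) (d s) v) := by
    rw [Filter.eventually_all]
    exact fun s => ((hY s).and (hC s)).mono fun v hv =>
      uu_mon hv.1.choose_spec.1 hv.1.choose_spec.2 hv.2.choose_spec.1 hv.2.choose_spec.2
  have hpal : ∀ᶠ v : HeightOneSpectrum (𝓞 K) in cofinite, ∀ s, Pal (d s) (uu (Y s) (d s) v) := by
    rw [Filter.eventually_all]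
    exact fun s => (hY s).mono fun v hv => uu_pal hv.choose_spec.1 hv.choose_spec.2
  exact (hall.and hpal).mono fun v hv n =>
    Mon.prod _ n d (fun s _ => hv.1 s) fun s _ => hv.2 s

/-- **Positivity of the matrix of the orders.** -/
theorem main_psd (hY : ∀ s, IsSmooth (Y s) (d s)) {l : ℕ} (n : Fin l → Fin r → ℕ)
    (j : Fin l → ℤ) (m : Fin l → Fin l → ℤ)
    (h : ∀ x y, Ord Y d (n x + n y) (j x - j y) (m x y)) (c : Fin l → ℝ) :
    ∑ x, ∑ y, c x * c y * m x y ≤ 0 := by
  choose T b hT hb hv using fun x y => ord_mean hY (h x y)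
  have h1 := comb (Finset.univ : Finset (Fin l × Fin l)) (fun p => c p.1 * c p.2)
    (T := fun p => T p.1 p.2) (M := fun p => -(m p.1 p.2 : ℝ)) (b := fun p => b p.1 p.2)
    (fun p _ => hT p.1 p.2) (fun p _ => hb p.1 p.2) (c := 0) (by
      have h2 : ∀ᶠ v : HeightOneSpectrum (𝓞 K) in cofinite, ∀ x y, ((T x y v : ℝ) : ℂ) =
          cz (∏ s, uu (Y s) (d s) v ^ (n x + n y) s) (dim d (n x + n y) + (j x - j y)) := by
        rw [Filter.eventually_all]
        intro x
        rw [Filter.eventually_all]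
        exact fun y => hv x y
      filter_upwards [h2, pal_ev hY] with v g1 g2
      have h3 := psd (P := fun x => PP Y d (n x) v) (D := fun x => dim d (n x))
        (fun x => g2 (n x)) j c
      rw [Complex.re_sum] at h3
      simp only [Complex.re_sum, Complex.re_ofReal_mul] at h3
      rw [Fintype.sum_prod_type]
      refine h3.trans (le_of_eq (Finset.sum_congr rfl fun x _ => Finset.sum_congr rfl fun y _ => ?_))
      have h4 := g1 x y
      change _ = cz (PP Y d (n x + n y) v) _ at h4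
      rw [PP_add, dim_add] at h4
      rw [← h4, Complex.ofReal_re])
  rw [Fintype.sum_prod_type] at h1
  have h2 : ∑ x, ∑ y, c x * c y * -(m x y : ℝ) = -∑ x, ∑ y, c x * c y * m x y := by
    rw [← Finset.sum_neg_distrib]
    refine Finset.sum_congr rfl fun x _ => ?_
    rw [← Finset.sum_neg_distrib]
    exact Finset.sum_congr rfl fun y _ => by ring
  simp only at h1
  rw [h2] at h1
  linarith

/-- two orders -/
theorem main_abs (hY : ∀ s, IsSmooth (Y s) (d s)) {n : Fin r → ℕ} {j m m' : ℤ}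
    (h : Ord Y d (n + n) 0 m) (h' : Ord Y d (n + n) j m') : |m'| ≤ -m := by
  obtain ⟨T, b, hT, hb, hv⟩ := ord_mean hY h
  obtain ⟨T', b', hT', hb', hv'⟩ := ord_mean hY h'
  have key : ∀ c : ℝ, |c| = 1 → 0 ≤ 1 * -(m : ℝ) + c * -(m' : ℝ) := by
    intro c hc
    refine ((hT.const_mul 1).add (hT'.const_mul c) (b := b) (b' := b') (fun v => by
      rw [one_mul]; exact hb v) (fun v => by
      rw [abs_mul, hc, one_mul]; exact hb' v)).lower (b := b + b') (fun v => ?_) ?_
    · refine (abs_add_le _ _).trans (add_le_add (by rw [one_mul]; exact hb v) ?_)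
      rw [abs_mul, hc, one_mul]
      exact hb' v
    · filter_upwards [hv, hv', pal_ev hY] with v g1 g2 g3
      change _ = cz (PP Y d (n + n) v) _ at g1
      change _ = cz (PP Y d (n + n) v) _ at g2
      rw [PP_add, dim_add, add_zero] at g1
      rw [PP_add, dim_add] at g2
      have h1 := cz_abs_le (g3 n) j
      rw [← g1, ← g2, Complex.ofReal_re, Complex.ofReal_re] at h1
      have h2 : |c * T' v| ≤ T v := by rwa [abs_mul, hc, one_mul]
      have h3 := neg_abs_le (c * T' v)
      linarith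
  have h1 := key 1 (by norm_num)
  have h2 := key (-1) (by norm_num)
  have h3 : |(m' : ℝ)| ≤ -m := by
    rw [abs_le]
    constructor <;> linarith
  exact_mod_cast h3

/-- squares of orders -/
theorem main_sq (hY : ∀ s, IsSmooth (Y s) (d s)) {n : Fin r → ℕ} {m : ℤ} (J : Finset ℤ)
    (μ : ℤ → ℤ) (h : Ord Y d (n + n) 0 m) (h' : ∀ j ∈ J, Ord Y d n j (μ j)) :
    ∑ j ∈ J, μ j ^ 2 ≤ -m := by
  classical
  obtain ⟨T, b, hT, hb, hv⟩ := ord_mean hY h
  have hex : ∀ j, ∃ (T' : HeightOneSpectrum (𝓞 K) → ℝ) (b' : ℝ), j ∈ J → Mean T' (-(μ j : ℝ)) ∧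
      (∀ v, |T' v| ≤ b') ∧ ∀ᶠ v in cofinite,
        (T' v : ℂ) = cz (∏ s, uu (Y s) (d s) v ^ n s) (dim d n + j) := by
    intro j
    by_cases hj : j ∈ J
    · obtain ⟨T', b', h1, h2, h3⟩ := ord_mean hY (h' j hj)
      exact ⟨T', b', fun _ => ⟨h1, h2, h3⟩⟩
    · exact ⟨0, 0, fun h0 => absurd h0 hj⟩
  choose T' b' hT' using hex
  have h0 := comb (Finset.insertNone J) (fun o : Option ℤ => o.elim 1 fun j => 2 * (μ j : ℝ))
    (T := fun o => o.elim T fun j => T' j)
    (M := fun o => o.elim (-(m : ℝ)) fun j => -(μ j : ℝ)) (b := fun o => o.elim b fun j => b' j)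
    (fun o ho => by
      cases o with
      | none => exact hT
      | some j => exact (hT' j (by simpa using ho)).1)
    (fun o ho => by
      cases o with
      | none => exact hb
      | some j => exact (hT' j (by simpa using ho)).2.1) (c := -∑ j ∈ J, (μ j : ℝ) ^ 2) (by
      have h2 : ∀ᶠ v : HeightOneSpectrum (𝓞 K) in cofinite, ∀ j ∈ J, ((T' j v : ℝ) : ℂ) =
          cz (∏ s, uu (Y s) (d s) v ^ n s) (dim d n + j) := by
        rw [Filter.eventually_all_finset]
        exact fun j hj => (hT' j hj).2.2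
      filter_upwards [hv, h2, pal_ev hY] with v g1 g2 g3
      rw [Finset.sum_insertNone]
      simp only [Option.elim_none, Option.elim_some, one_mul]
      change _ = cz (PP Y d (n + n) v) _ at g1
      rw [PP_add, dim_add, add_zero] at g1
      have h3 := bessel (g3 n) J fun j => -(μ j : ℝ)
      rw [← g1, Complex.ofReal_re] at h3
      have h4 : ∑ j ∈ J, -(μ j : ℝ) * (cz (PP Y d n v) (dim d n + j)).re =
          -∑ j ∈ J, (μ j : ℝ) * T' j v := by
        rw [← Finset.sum_neg_distrib]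
        refine Finset.sum_congr rfl fun j hj => ?_
        have h5 := g2 j hj
        change _ = cz (PP Y d n v) _ at h5
        rw [← h5, Complex.ofReal_re]
        ring
      rw [h4] at h3
      simp only [neg_sq] at h3
      have h6 : ∑ j ∈ J, 2 * (μ j : ℝ) * T' j v = 2 * ∑ j ∈ J, (μ j : ℝ) * T' j v := by
        rw [Finset.mul_sum]
        exact Finset.sum_congr rfl fun j _ => by ring
      rw [h6]
      linarith)
  rw [Finset.sum_insertNone] at h0
  simp only [Option.elim_none, Option.elim_some, one_mul] at h0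
  have h7 : ∑ j ∈ J, 2 * (μ j : ℝ) * -(μ j : ℝ) = -2 * ∑ j ∈ J, (μ j : ℝ) ^ 2 := by
    rw [Finset.mul_sum]
    exact Finset.sum_congr rfl fun j _ => by ring
  rw [h7] at h0
  have h8 : ∑ j ∈ J, (μ j : ℝ) ^ 2 ≤ -m := by linarith
  exact_mod_cast h8

/-- the order in the middle -/
theorem main_mid (hY : ∀ s, IsSmooth (Y s) (d s)) (hC : ∀ s, IsConn (Y s) (d s))
    {n : Fin r → ℕ} {k : ℕ} {m : ℤ} (hn : 0 < dim d n) (h : Ord Y d ((2 * k) • n) 0 m) :
    m ≤ -((2 * k).choose k : ℤ) := by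
  obtain ⟨T, b, hT, hb, hv⟩ := ord_mean hY h
  have h1 : ((2 * k).choose k : ℝ) ≤ -(m : ℝ) := by
    refine hT.lower hb ?_
    filter_upwards [hv, pal_ev hY, mon_ev hY hC] with v g1 g2 g3
    change _ = cz (PP Y d ((2 * k) • n) v) _ at g1
    rw [PP_smul, dim_smul, add_zero] at g1
    have h2 := lower hn (g2 n) (g3 n) k
    rwa [← g1, Complex.ofReal_re] at h2
  have h3 : ((2 * k).choose k : ℤ) ≤ -m := by exact_mod_cast h1
  omega

end

end Pool.Agent.K4H65.EP
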