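import Pool.Agent.W353.EF.Defs

/-! Orders and mean values of normalised traces. -/

set_option autoImplicit false

namespace Pool.Agent.K4H65.EP

open Complex Filter Topology ComplexConjugate NumberField IsDedekindDomain Asymptotics
  Pool.Agent.W401.Cheb Pool.Agent.W540.BE Pool.Agent.W353.L1 Polynomial
open Pool.Agent.W353.TP (HX sysH push push_abs_le qh qh_abs qh_eq res LL LL_tendsto E_H bdd_isLittleO
  lam0_sub)
open Pool.Agent.W353.AB (Sy vq corr_gen)
open Pool.Agent.W353.NF (vx EP_eq)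
open Pool.Agent.W353.PV
open Pool.Agent.H341R2 (lam lam_tendsto sysK chi)

section
variable {K : Type} [Field K] [NumberField K] {n : ℕ}
  {X : Set (MvPolynomial (Fin n) (𝓞 K))} {d i N : ℕ}

/-- `M` is the mean value of `φ` over the primes -/
def Mean (φ : HeightOneSpectrum (𝓞 K) → ℝ) (M : ℝ) : Prop :=
  Tendsto (fun ε : ℝ => (EP (nm K) ε φ) / lam ε) (𝓝[>] 0) (𝓝 M)

theorem alp_good {v : HeightOneSpectrum (𝓞 K)} {α : Fin N → ℂ} (h1 : Eig X d i v α) :
    Eig X d i v (alp X d i N K v) := pick_spec ⟨α, h1⟩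

/-- **Orders as mean values.** -/
theorem mean_ord (hi : i ≤ 2 * d) (B : HeightOneSpectrum (𝓞 K) → ℂ[X])
    (hB : ∀ᶠ v in cofinite, ∃ α : Fin N → ℂ, Eig X d i v α ∧
      ∀ z : ℂ, (B v).eval z = ∏ j, (1 - α j * z))
    (hB0 : ∀ v, (B v).eval ((Ideal.absNorm v.asIdeal : ℂ) ^ (-((i : ℂ) / 2 + 1))) ≠ 0)
    {m : ℤ} {Λ : ℂ → ℂ} (hΛ : MeromorphicAt Λ ((i : ℂ) / 2 + 1))
    (hΛL : ∀ᶠ s in 𝓝 ((i : ℂ) / 2 + 1), (i : ℝ) / 2 + 1 < s.re → Λ s = LX B s)
    (hm : meromorphicOrderAt Λ ((i : ℂ) / 2 + 1) = m) :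
    Mean (fun v => tF X d i N K v) (-(m : ℝ)) := by
  classical
  choose σ hσ using exists_isFrob (F := K)
  have hgood : ∀ᶠ v in cofinite, Eig X d i v (alp X d i N K v) ∧
      ∀ z : ℂ, (B v).eval z = ∏ j, (1 - alp X d i N K v j * z) := by
    refine hB.mono fun v hv => ?_
    obtain ⟨α, h1, h2⟩ := hv
    have h3 : Eig X d i v (alp X d i N K v) := pick_spec ⟨α, h1⟩
    refine ⟨h3, fun z => ?_⟩
    rw [h2]
    have h4 := congrArg (fun s : Multiset ℂ => (s.map fun a => 1 - a * z).prod)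
      (h1.unique' hi h3)
    simp only [Multiset.map_map] at h4
    exact h4
  have e0 : ((((i : ℝ) / 2 : ℝ) : ℂ) + 1 + ((0 : ℝ) : ℂ) * I) = (i : ℂ) / 2 + 1 := by
    push_cast
    ring
  have hsz := size_corr ((i : ℝ) / 2) (alp X d i N K)
    (hgood.mono fun v hv j => hv.1.norm j) (hgood.mono fun v hv => hv.1.im hi)
    (⊤ : Subgroup (GK K)) (n := 1) (1 : Representation ℂ (GK K) (Fin 1 → ℂ)) (fun _ _ => rfl) 0 B
    (hgood.mono fun v hv g _ z => by
      rw [hv.2 z]
      refine Finset.prod_congr rfl fun j _ => ?_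
      have e1 : (1 : Module.End ℂ (Fin 1 → ℂ)) - (alp X d i N K v j * z) •
          ((1 : Representation ℂ (GK K) (Fin 1 → ℂ)) g⁻¹) =
          (1 - alp X d i N K v j * z) • (1 : Module.End ℂ (Fin 1 → ℂ)) := by
        have e0 : (1 : Representation ℂ (GK K) (Fin 1 → ℂ)) g⁻¹ =
            (1 : Module.End ℂ (Fin 1 → ℂ)) := rfl
        rw [e0]
        refine LinearMap.ext fun x => ?_
        rw [LinearMap.sub_apply, LinearMap.smul_apply, LinearMap.smul_apply,
          Module.End.one_apply]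
        exact (by rw [sub_smul, one_smul] : x - (alp X d i N K v j * z) • x =
          ((1 : ℂ) - alp X d i N K v j * z) • x)
      rw [e1, LinearMap.det_smul]
      simp)
    (by rw [e0]; exact hB0) (LX B) (fun s _ => rfl) σ hσ
  rw [e0] at hsz
  have hlim := lim_ord hsz.1 hΛ (hΛL.mono fun s hs h => hs (by simpa using h)) hm
  have h2 := hsz.2.add hlim
  rw [zero_add] at h2
  unfold Mean
  refine h2.congr fun ε => ?_
  rw [sub_add_cancel]
  congr 2
  funext v
  have e3 : (1 : Representation ℂ (GK K) (Fin 1 → ℂ)).character (σ v)⁻¹ = 1 := by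
    have : (1 : Representation ℂ (GK K) (Fin 1 → ℂ)).character (σ v)⁻¹ =
        LinearMap.trace ℂ (Fin 1 → ℂ) (1 : Module.End ℂ (Fin 1 → ℂ)) := rfl
    rw [this, LinearMap.trace_one]
    simp
  have e4 : zz 0 v = 1 := by
    unfold zz
    simp
  rw [e3, e4, one_mul, mul_one, Complex.ofReal_re]
  rfl

theorem abs_tF_le (v : HeightOneSpectrum (𝓞 K)) : |tF X d i N K v| ≤ N := abs_tr_le _ _ _

theorem Mean.zero : Mean (K := K) (fun _ => 0) 0 := by
  unfold Mean
  refine tendsto_const_nhds.congr fun ε => ?_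
  have : EP (nm K) ε (fun _ => (0 : ℝ)) = 0 := by
    unfold EP
    simp
  rw [this, zero_div]

theorem Mean.one : Mean (K := K) (fun _ => 1) 1 := EP_one K

theorem Mean.const_mul {φ : HeightOneSpectrum (𝓞 K) → ℝ} {M : ℝ} (h : Mean φ M) (c : ℝ) :
    Mean (fun v => c * φ v) (c * M) := by
  unfold Mean at *
  refine (Tendsto.const_mul c h).congr fun ε => ?_
  rw [EP_const_mul, mul_div_assoc]

theorem Mean.add {φ ψ : HeightOneSpectrum (𝓞 K) → ℝ} {M M' b b' : ℝ} (h : Mean φ M)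
    (h' : Mean ψ M') (hb : ∀ v, |φ v| ≤ b) (hb' : ∀ v, |ψ v| ≤ b') :
    Mean (fun v => φ v + ψ v) (M + M') := by
  unfold Mean at *
  refine (Tendsto.add h h').congr' ?_
  filter_upwards [self_mem_nhdsWithin] with ε hε
  rw [EP_add normSys hε hb hb', add_div]

/-- linear combinations -/
theorem Mean.lincomb {ι : Type*} (S : Finset ι) (γ : ι → ℝ)
    {T : ι → HeightOneSpectrum (𝓞 K) → ℝ} {M b : ι → ℝ} (hT : ∀ t ∈ S, Mean (T t) (M t))
    (hb : ∀ t ∈ S, ∀ v, |T t v| ≤ b t) :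
    Mean (fun v => ∑ t ∈ S, γ t * T t v) (∑ t ∈ S, γ t * M t) := by
  classical
  induction S using Finset.induction_on with
  | empty => simpa using Mean.zero
  | insert a S ha ih =>
    simp only [Finset.sum_insert ha]
    refine Mean.add (b := |γ a| * b a) (b' := ∑ t ∈ S, |γ t| * b t)
      ((hT a (Finset.mem_insert_self a S)).const_mul (γ a))
      (ih (fun t ht => hT t (Finset.mem_insert_of_mem ht))
        fun t ht => hb t (Finset.mem_insert_of_mem ht)) ?_ ?_
    · intro v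
      rw [abs_mul]
      exact mul_le_mul_of_nonneg_left (hb a (Finset.mem_insert_self a S) v) (abs_nonneg _)
    · intro v
      refine (Finset.abs_sum_le_sum_abs _ _).trans (Finset.sum_le_sum fun t ht => ?_)
      rw [abs_mul]
      exact mul_le_mul_of_nonneg_left (hb t (Finset.mem_insert_of_mem ht) v) (abs_nonneg _)

/-- lower bounds -/
theorem Mean.lower {φ : HeightOneSpectrum (𝓞 K) → ℝ} {M b c : ℝ} (h : Mean φ M)
    (hb : ∀ v, |φ v| ≤ b) (hc : ∀ᶠ v in cofinite, c ≤ φ v) : c ≤ M := by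
  classical
  have hfin : {v | ¬ c ≤ φ v}.Finite := by rwa [Filter.eventually_cofinite] at hc
  set S := hfin.toFinset with hS
  set r : HeightOneSpectrum (𝓞 K) → ℝ := fun v => if c ≤ φ v then 0 else φ v - c with hr
  have hrb : ∀ v, |r v| ≤ b + |c| := by
    intro v
    rw [hr]
    simp only
    split_ifs
    · rw [abs_zero]
      have := (abs_nonneg (φ v)).trans (hb v)
      positivity
    · refine (abs_sub _ _).trans ?_
      linarith [hb v]
  have hr0 : ∀ v, v ∉ S → r v = 0 := by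
    intro v hv
    rw [hr]
    simp only
    rw [if_pos]
    by_contra h2
    exact hv (hfin.mem_toFinset.2 h2)
  have hle : ∀ v, c * 1 + r v ≤ φ v := by
    intro v
    rw [hr]
    simp only
    split_ifs with h2
    · linarith
    · linarith
  have hlow : ∀ᶠ ε : ℝ in 𝓝[>] 0,
      c * ((EP (nm K) ε fun _ => 1) / lam ε) - (S.card * (b + |c|)) / lam ε ≤
        (EP (nm K) ε φ) / lam ε := by
    filter_upwards [lam_tendsto.eventually_gt_atTop 0, self_mem_nhdsWithin] with ε h1 h2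
    have hε : (0 : ℝ) < ε := h2
    have h3 := EP_mono (F := K) (B := |c| + (b + |c|)) (B' := b) (φ := fun v => c * 1 + r v)
      (ψ := φ) (fun v => by
        refine (abs_add_le _ _).trans (add_le_add ?_ (hrb v))
        rw [mul_one]) hb hle hε
    rw [EP_add normSys hε (B := |c|) (fun v => by rw [mul_one]) hrb, EP_const_mul] at h3
    have h4 := EP_finsupp normSys S r hr0 (b + |c|) hrb hε
    have h5 := (abs_le.1 h4).1
    rw [← mul_div_assoc, ← sub_div]
    refine div_le_div_of_nonneg_right ?_ h1.le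
    linarith
  have hlim : Tendsto (fun ε : ℝ => c * ((EP (nm K) ε fun _ => 1) / lam ε) -
      (S.card * (b + |c|)) / lam ε) (𝓝[>] 0) (𝓝 (c * 1 - 0)) :=
    ((EP_one K).const_mul c).sub (lam_tendsto.const_div_atTop _)
  have h6 := le_of_tendsto_of_tendsto hlim h hlow
  linarith

/-- **Inequalities between mean values.** -/
theorem comb {ι : Type*} (S : Finset ι) (γ : ι → ℝ) {T : ι → HeightOneSpectrum (𝓞 K) → ℝ}
    {M b : ι → ℝ} (hT : ∀ t ∈ S, Mean (T t) (M t)) (hb : ∀ t ∈ S, ∀ v, |T t v| ≤ b t) {c : ℝ}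
    (hc : ∀ᶠ v in cofinite, c ≤ ∑ t ∈ S, γ t * T t v) : c ≤ ∑ t ∈ S, γ t * M t := by
  refine (Mean.lincomb S γ hT hb).lower (b := ∑ t ∈ S, |γ t| * b t) (fun v => ?_) hc
  refine (Finset.abs_sum_le_sum_abs _ _).trans (Finset.sum_le_sum fun t ht => ?_)
  rw [abs_mul]
  exact mul_le_mul_of_nonneg_left (hb t ht v) (abs_nonneg _)

end

end Pool.Agent.K4H65.EP
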