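import Mathlib

/-! Products of graded multisets of complex numbers. -/

set_option autoImplicit false

namespace Pool.Agent.K4H65.EP

open Polynomial

/-- the power sums of a multiset -/
noncomputable def pe (e : ℕ) : Multiset ℂ →+ ℂ :=
  Multiset.sumAddMonoidHom.comp (Multiset.mapAddMonoidHom fun z : ℂ => z ^ e)

theorem pe_apply (e : ℕ) (s : Multiset ℂ) : pe e s = (s.map fun z => z ^ e).sum := rfl

/-- the products of the elements of two multisets -/
def mm (s t : Multiset ℂ) : Multiset ℂ := (s ×ˢ t).map fun z => z.1 * z.2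

theorem pe_mm (e : ℕ) (s t : Multiset ℂ) : pe e (mm s t) = pe e s * pe e t := by
  induction s using Multiset.induction_on with
  | empty => simp [mm, pe_apply]
  | cons a s ih =>
    have h1 : mm (a ::ₘ s) t = t.map (fun z => a * z) + mm s t := by
      unfold mm
      rw [Multiset.cons_product, Multiset.map_add, Multiset.map_map]
      rfl
    rw [h1, map_add, ih, pe_apply e (a ::ₘ s), pe_apply, pe_apply e s, pe_apply,
      Multiset.map_map, Multiset.map_cons, Multiset.sum_cons, add_mul]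
    congr 1
    rw [← Multiset.sum_map_mul_left]
    congr 1
    refine Multiset.map_congr rfl fun z _ => ?_
    simp [mul_pow]

/-- the graded product -/
def star (β γ : ℕ → Multiset ℂ) (i : ℕ) : Multiset ℂ :=
  ∑ p ∈ Finset.HasAntidiagonal.antidiagonal i, mm (β p.1) (γ p.2)

theorem pe_star (e : ℕ) (β γ : ℕ → Multiset ℂ) (i : ℕ) :
    pe e (star β γ i) = ∑ p ∈ Finset.HasAntidiagonal.antidiagonal i, pe e (β p.1) * pe e (γ p.2) := by
  unfold star
  rw [map_sum]
  exact Finset.sum_congr rfl fun p _ => pe_mm _ _ _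

/-- graded multisets of weights up to `2 D` -/
def Good (q : ℝ) (D : ℕ) (β : ℕ → Multiset ℂ) : Prop :=
  (∀ k, ∀ z ∈ β k, ‖z‖ = q ^ ((k : ℝ) / 2)) ∧ ∀ k, 2 * D < k → β k = 0

/-- the polynomial of the power sums -/
noncomputable def pol (e : ℕ) (a : ℂ) (β : ℕ → Multiset ℂ) (D : ℕ) : ℂ[X] :=
  ∑ k ∈ Finset.range (2 * D + 1), monomial k (pe e (β k) * a ^ k)

theorem coeff_pol (e : ℕ) (a : ℂ) {β : ℕ → Multiset ℂ} {D : ℕ} (h : ∀ k, 2 * D < k → β k = 0)
    (k : ℕ) : (pol e a β D).coeff k = pe e (β k) * a ^ k := by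
  unfold pol
  rw [finset_sum_coeff]
  simp only [coeff_monomial]
  rw [Finset.sum_ite_eq']
  split_ifs with hk
  · rfl
  · rw [h k (by have := Finset.mem_range.not.1 hk; omega), map_zero, zero_mul]

theorem natDegree_pol (e : ℕ) (a : ℂ) (β : ℕ → Multiset ℂ) (D : ℕ) :
    (pol e a β D).natDegree ≤ 2 * D := by
  unfold pol
  refine natDegree_sum_le_of_forall_le _ _ fun k hk => ?_
  exact (natDegree_monomial_le _).trans (by have := Finset.mem_range.1 hk; omega)

theorem mem_mm {s t : Multiset ℂ} {z : ℂ} (h : z ∈ mm s t) : ∃ x ∈ s, ∃ y ∈ t, z = x * y := by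
  obtain ⟨⟨x, y⟩, h1, h2⟩ := Multiset.mem_map.1 h
  rw [Multiset.mem_product] at h1
  exact ⟨x, h1.1, y, h1.2, h2.symm⟩

theorem Good.star {q : ℝ} (hq : 0 < q) {D D' : ℕ} {β γ : ℕ → Multiset ℂ} (h : Good q D β)
    (h' : Good q D' γ) : Good q (D + D') (star β γ) := by
  refine ⟨fun k z hz => ?_, fun k hk => ?_⟩
  · unfold EP.star at hz
    rw [Multiset.mem_sum] at hz
    obtain ⟨p, hp, hz⟩ := hz
    obtain ⟨x, hx, y, hy, rfl⟩ := mem_mm hz
    rw [norm_mul, h.1 _ x hx, h'.1 _ y hy, ← Real.rpow_add hq, ← Finset.HasAntidiagonal.mem_antidiagonal.1 hp]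
    congr 1
    push_cast
    ring
  · unfold EP.star
    refine Finset.sum_eq_zero fun p hp => ?_
    have h1 := Finset.HasAntidiagonal.mem_antidiagonal.1 hp
    by_cases h2 : 2 * D < p.1
    · rw [h.2 _ h2]
      rfl
    · rw [h'.2 p.2 (by omega)]
      unfold mm
      rw [Multiset.product_zero, Multiset.map_zero]

theorem pol_star (e : ℕ) (a : ℂ) {q : ℝ} (hq : 0 < q) {D D' : ℕ} {β γ : ℕ → Multiset ℂ}
    (h : Good q D β) (h' : Good q D' γ) :
    pol e a (star β γ) (D + D') = pol e a β D * pol e a γ D' := by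
  ext k
  rw [coeff_pol e a (h.star hq h').2, coeff_mul, pe_star, Finset.sum_mul]
  refine Finset.sum_congr rfl fun p hp => ?_
  rw [coeff_pol e a h.2, coeff_pol e a h'.2, ← Finset.HasAntidiagonal.mem_antidiagonal.1 hp, pow_add]
  ring

theorem exists_one (q : ℝ) :
    ∃ δ, Good q 0 δ ∧ ∀ e a, pol e a δ 0 = 1 := by
  refine ⟨fun k => if k = 0 then {1} else 0, ⟨fun k z hz => ?_, fun k hk => ?_⟩, fun e a => ?_⟩
  · simp only at hz
    by_cases hk : k = 0
    · rw [if_pos hk, Multiset.mem_singleton] at hz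
      rw [hz, hk]
      simp
    · rw [if_neg hk] at hz
      exact absurd hz (Multiset.notMem_zero z)
  · simp only
    rw [if_neg (by omega)]
  · unfold pol
    rw [mul_zero, zero_add, Finset.sum_range_one]
    simp only
    rw [if_pos trivial, pe_apply, Multiset.map_singleton,
      Multiset.sum_singleton, one_pow, pow_zero, one_mul]
    rfl

theorem exists_pow {q : ℝ} (hq : 0 < q) {D : ℕ} {β : ℕ → Multiset ℂ} (h : Good q D β) (n : ℕ) :
    ∃ δ, Good q (n * D) δ ∧ ∀ e a, pol e a δ (n * D) = pol e a β D ^ n := by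
  induction n with
  | zero =>
    obtain ⟨δ, h1, h2⟩ := exists_one q
    refine ⟨δ, by rwa [zero_mul], fun e a => by rw [zero_mul, pow_zero, h2]⟩
  | succ n ih =>
    obtain ⟨δ, h1, h2⟩ := ih
    refine ⟨EP.star δ β, ?_, fun e a => ?_⟩
    · rw [Nat.succ_mul]
      exact h1.star hq h
    · rw [Nat.succ_mul, pol_star e a hq h1 h, h2, pow_succ]

theorem exists_prod {q : ℝ} (hq : 0 < q) {ι : Type*} (S : Finset ι) {D : ι → ℕ}
    {β : ι → ℕ → Multiset ℂ} (h : ∀ s ∈ S, Good q (D s) (β s)) (n : ι → ℕ) :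
    ∃ δ, Good q (∑ s ∈ S, n s * D s) δ ∧
      ∀ e a, pol e a δ (∑ s ∈ S, n s * D s) = ∏ s ∈ S, pol e a (β s) (D s) ^ n s := by
  classical
  induction S using Finset.induction_on with
  | empty =>
    obtain ⟨δ, h1, h2⟩ := exists_one q
    exact ⟨δ, by simpa using h1, fun e a => by simpa using h2 e a⟩
  | insert a S ha ih =>
    obtain ⟨δ, h1, h2⟩ := ih fun s hs => h s (Finset.mem_insert_of_mem hs)
    obtain ⟨γ, h3, h4⟩ := exists_pow hq (h a (Finset.mem_insert_self a S)) (n a)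
    refine ⟨EP.star γ δ, ?_, fun e b => ?_⟩
    · rw [Finset.sum_insert ha]
      exact h3.star hq h1
    · rw [Finset.sum_insert ha, Finset.prod_insert ha, pol_star e b hq h3 h1, h2, h4]

/-- the value at `-1` -/
theorem eval_pol (e : ℕ) (β : ℕ → Multiset ℂ) (D : ℕ) :
    (pol e 1 β D).eval (-1) =
      ∑ k ∈ Finset.range (2 * D + 1), (-1 : ℂ) ^ k * ((β k).map fun z => z ^ e).sum := by
  unfold pol
  rw [eval_finset_sum]
  refine Finset.sum_congr rfl fun k _ => ?_
  rw [eval_monomial, pe_apply, one_pow, mul_one, mul_comm]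

end Pool.Agent.K4H65.EP
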