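import Pool.Agent.K4H65.EP.Defs

/-!
# Varieties with signed cohomology: definitions
-/

set_option autoImplicit false

namespace Pool.Agent.K4H65.EP

open NumberField IsDedekindDomain Filter Polynomial

section
variable {K : Type} [Field K] [NumberField K]

/-- Let `Y_1, …, Y_r` be smooth projective varieties of dimensions `d_s`, `h ≥ 1`, and `m_s(k)` natural
numbers.  At almost all primes `v`, with `q = q_v`:
* `H^k(Y_s) = 0` if `h` does not divide `k`;
* the trace of Frobenius on `H^k(Y_s)` is at least `m_s(k) q^{k/2}` if `2 h` divides `k`;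
* the traces of Frobenius on the other `H^k(Y_s)`, for all `s` and all `k` which are odd multiples of
  `h`, have the same sign (some of them may be zero).

For `h = 1` the traces on the cohomology of even degree are bounded below by `m_s(k) q^{k/2} ≥ 0`, and
the traces on the cohomology of odd degree have the same sign. -/
def IsSigned {r : ℕ} {a : Fin r → ℕ} (Y : (s : Fin r) → Set (MvPolynomial (Fin (a s)) (𝓞 K)))
    (d : Fin r → ℕ) (h : ℕ) (m : Fin r → ℕ → ℕ) : Prop :=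
  ∀ᶠ v : HeightOneSpectrum (𝓞 K) in cofinite, ∃ β : Fin r → ℕ → Multiset ℂ,
    (∀ s, IsWeil (Y s) (d s) v (β s)) ∧
    (∀ s, ∀ k ≤ 2 * d s, ¬ h ∣ k → β s k = 0) ∧
    (∀ s, ∀ k ≤ 2 * d s, 2 * h ∣ k →
      (m s k : ℝ) * (Ideal.absNorm v.asIdeal : ℝ) ^ ((k : ℝ) / 2) ≤ (β s k).sum.re) ∧
    ∀ s t, ∀ k ≤ 2 * d s, ∀ l ≤ 2 * d t, ¬ 2 * h ∣ k → ¬ 2 * h ∣ l →
      0 ≤ (β s k).sum.re * (β t l).sum.re

end

/-- `∏_s (∑_{2h ∣ k ≤ 2 d_s} m_s(k) z^k)^{n_s}` -/
noncomputable def Lower {r : ℕ} (d n : Fin r → ℕ) (h : ℕ) (m : Fin r → ℕ → ℕ) : ℕ[X] :=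
  ∏ s, (∑ k ∈ Finset.range (2 * d s + 1), if 2 * h ∣ k then monomial k (m s k) else 0) ^ n s

end Pool.Agent.K4H65.EP
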