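import Pool.Agent.K4H65.EP.Trace
import Pool.Agent.K4H65.EP.SDefs

/-! Varieties with signed cohomology. -/

set_option autoImplicit false

namespace Pool.Agent.K4H65.EP

open Complex Filter Topology ComplexConjugate NumberField IsDedekindDomain Polynomial
open Pool.Agent.W353.PV (Eig mult_unique one_lt_norm exists_ext alp tF)
open Pool.Agent.W353.EF (cone)

/-- `ε^{k/h} P_k ≥ M_k ≥ 0`, and `P_k = 0` unless `h ∣ k` -/
def Dom (ε : ℝ) (h : ℕ) (P M : ℝ[X]) : Prop :=
  ∀ k, (¬ h ∣ k → P.coeff k = 0) ∧ 0 ≤ M.coeff k ∧ M.coeff k ≤ ε ^ (k / h) * P.coeff k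

theorem Dom.one {ε : ℝ} {h : ℕ} : Dom ε h 1 1 := by
  intro k
  rw [coeff_one]
  by_cases hk : k = 0
  · subst hk
    simp
  · rw [if_neg hk]
    simp

theorem Dom.mul {ε : ℝ} {h : ℕ} (hh : 0 < h) {P M P' M' : ℝ[X]} (H : Dom ε h P M)
    (H' : Dom ε h P' M') : Dom ε h (P * P') (M * M') := by
  intro k
  rw [coeff_mul, coeff_mul]
  refine ⟨fun hk => Finset.sum_eq_zero fun p hp => ?_,
    Finset.sum_nonneg fun p _ => mul_nonneg (H p.1).2.1 (H' p.2).2.1, ?_⟩
  · have hp' := Finset.HasAntidiagonal.mem_antidiagonal.1 hp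
    by_cases h1 : h ∣ p.1
    · by_cases h2 : h ∣ p.2
      · exact absurd (hp' ▸ dvd_add h1 h2) hk
      · rw [(H' p.2).1 h2, mul_zero]
    · rw [(H p.1).1 h1, zero_mul]
  · rw [Finset.mul_sum]
    refine Finset.sum_le_sum fun p hp => ?_
    have hp' := Finset.HasAntidiagonal.mem_antidiagonal.1 hp
    have e1 : ε ^ (k / h) * (P.coeff p.1 * P'.coeff p.2) =
        (ε ^ (p.1 / h) * P.coeff p.1) * (ε ^ (p.2 / h) * P'.coeff p.2) := by
      by_cases h1 : h ∣ p.1
      · obtain ⟨x, hx⟩ := h1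
        by_cases h2 : h ∣ p.2
        · obtain ⟨y, hy⟩ := h2
          have : k / h = p.1 / h + p.2 / h := by
            rw [← hp', hx, hy, ← mul_add, Nat.mul_div_cancel_left _ hh,
              Nat.mul_div_cancel_left _ hh, Nat.mul_div_cancel_left _ hh]
          rw [this, pow_add]
          ring
        · rw [(H' p.2).1 h2]
          ring
      · rw [(H p.1).1 h1]
        ring
    rw [e1]
    exact mul_le_mul (H p.1).2.2 (H' p.2).2.2 (H' p.2).2.1
      ((H p.1).2.1.trans (H p.1).2.2)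

theorem Dom.pow {ε : ℝ} {h : ℕ} (hh : 0 < h) {P M : ℝ[X]} (H : Dom ε h P M) (n : ℕ) :
    Dom ε h (P ^ n) (M ^ n) := by
  induction n with
  | zero => simpa using Dom.one
  | succ n ih =>
    rw [pow_succ, pow_succ]
    exact ih.mul hh H

theorem Dom.prod {ι : Type*} (S : Finset ι) {ε : ℝ} {h : ℕ} (hh : 0 < h) {P M : ι → ℝ[X]}
    (n : ι → ℕ) (H : ∀ s ∈ S, Dom ε h (P s) (M s)) :
    Dom ε h (∏ s ∈ S, P s ^ n s) (∏ s ∈ S, M s ^ n s) := by
  classical
  induction S using Finset.induction_on with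
  | empty => simpa using Dom.one
  | insert a S ha ih =>
    rw [Finset.prod_insert ha, Finset.prod_insert ha]
    exact ((H a (Finset.mem_insert_self a S)).pow hh (n a)).mul hh
      (ih fun s hs => H s (Finset.mem_insert_of_mem hs))

section
variable {K : Type} [Field K] [NumberField K]

/-- the sums are real -/
theorem weil_real {n : ℕ} {X : Set (MvPolynomial (Fin n) (𝓞 K))} {d : ℕ}
    {v : HeightOneSpectrum (𝓞 K)} {β : ℕ → Multiset ℂ} (h : IsWeil X d v β) {k : ℕ}
    (hk : k ≤ 2 * d) : (β k).sum.im = 0 := by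
  have h' : IsWeil X d v (fun k => (β k).map conj) := by
    refine ⟨fun k z hz => ?_, fun κ _ _ φ e hk hc => ?_⟩
    · obtain ⟨y, hy, rfl⟩ := Multiset.mem_map.1 hz
      rw [Complex.norm_conj]
      exact h.1 k y hy
    · have e1 := congrArg conj (h.2 κ φ e hk hc)
      rw [Complex.conj_natCast] at e1
      rw [e1, map_mul, map_sub, map_pow, map_one, Complex.conj_natCast, map_sum]
      congr 1
      refine Finset.sum_congr rfl fun k _ => ?_
      rw [map_mul, map_pow, map_neg, map_one, map_multiset_sum, Multiset.map_map,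
        Multiset.map_map]
      congr 3
      funext z
      simp
  have h1 := congrArg Multiset.sum (weil_unique h h' hk)
  rw [← map_multiset_sum] at h1
  exact Complex.conj_eq_iff_im.1 h1.symm

/-- the normalised traces, as a real polynomial -/
noncomputable def ur {n : ℕ} (X : Set (MvPolynomial (Fin n) (𝓞 K))) (d : ℕ)
    (v : HeightOneSpectrum (𝓞 K)) : ℝ[X] :=
  ∑ k ∈ Finset.range (2 * d + 1), monomial k ((bt X d v k).sum.re * (qv v) ^ (-((k : ℝ) / 2)))

theorem coeff_ur {n : ℕ} (X : Set (MvPolynomial (Fin n) (𝓞 K))) (d : ℕ)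
    (v : HeightOneSpectrum (𝓞 K)) (k : ℕ) : (ur X d v).coeff k =
      if k ≤ 2 * d then (bt X d v k).sum.re * (qv v) ^ (-((k : ℝ) / 2)) else 0 := by
  unfold ur
  rw [finset_sum_coeff]
  simp only [coeff_monomial]
  rw [Finset.sum_ite_eq']
  by_cases hk : k ≤ 2 * d
  · rw [if_pos (Finset.mem_range.2 (by omega)), if_pos hk]
  · rw [if_neg (fun h => hk (by have := Finset.mem_range.1 h; omega)), if_neg hk]

theorem uu_eq {n : ℕ} {X : Set (MvPolynomial (Fin n) (𝓞 K))} {d : ℕ}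
    {v : HeightOneSpectrum (𝓞 K)} {β : ℕ → Multiset ℂ} (h : IsWeil X d v β) :
    uu X d v = (ur X d v).map (algebraMap ℝ ℂ) := by
  obtain ⟨h1, h2, h3⟩ := bt_spec h
  ext k
  rw [coeff_map, coeff_ur]
  unfold uu
  rw [coeff_pol _ _ h2.2]
  split_ifs with hk
  · rw [← Complex.ofReal_pow, rpow_half_pow (qv_pos v), pe_apply, Complex.coe_algebraMap,
      Complex.ofReal_mul]
    congr 1
    have e1 : (bt X d v k).map (fun z => z ^ 1) = bt X d v k := by
      simp only [pow_one, Multiset.map_id']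
    rw [e1]
    exact Complex.ext (by simp) (by rw [Complex.ofReal_im, weil_real h1 hk])
  · rw [h2.2 k (by omega), map_zero, zero_mul, map_zero]

variable {r : ℕ} {a : Fin r → ℕ} {Y : (s : Fin r) → Set (MvPolynomial (Fin (a s)) (𝓞 K))}
  {d n : Fin r → ℕ}

/-- the mean value of an order -/
theorem ord_mean' {j m : ℤ} (hY : ∀ᶠ v : HeightOneSpectrum (𝓞 K) in cofinite, ∀ s, ∃ β,
      IsWeil (Y s) (d s) v β) (h : Ord Y d n j m) :
    ∃ (T : HeightOneSpectrum (𝓞 K) → ℝ) (b : ℝ), Mean T (-(m : ℝ)) ∧ (∀ v, |T v| ≤ b) ∧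
      ∀ᶠ v in cofinite, (T v : ℂ) = cz (∏ s, uu (Y s) (d s) v ^ n s) (dim d n + j) := by
  rcases h with ⟨h1, h2⟩ | ⟨b, W, i, N, h1, h2, h3, h4⟩
  · refine ⟨fun _ => 0, 0, ?_, fun v => by simp, Eventually.of_forall fun v => ?_⟩
    · rw [h2, Int.cast_zero, neg_zero]
      exact Mean.zero
    · unfold cz
      have h5 := prod_deg Y d n v
      split_ifs with h6
      · rw [coeff_eq_zero_of_natDegree_lt]
        · rfl
        · rcases abs_cases j with ⟨h7, h8⟩ | ⟨h7, h8⟩ <;> omega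
      · rfl
  · obtain ⟨inst, B, hB, Λ, hΛ, hΛL, hm⟩ := h4
    refine ⟨fun v => tF W (dim d n) i N K v, N, ?_, fun v => abs_tF_le v, ?_⟩
    · exact mean_ord h3 B hB.1 hB.2 hΛ hΛL hm
    · filter_upwards [h1, hY, hB.1] with v k1 k2 k3
      obtain ⟨α, k4, _⟩ := k3
      rw [tF_prod k1 k2 h3 k4]
      unfold cz
      rw [if_pos (by omega), show ((dim d n : ℤ) + j).toNat = i by omega]

/-- the lower bound at a prime -/
theorem dom_prime {h : ℕ} (hh : 0 < h) {μ : Fin r → ℕ → ℕ} {v : HeightOneSpectrum (𝓞 K)}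
    {β : Fin r → ℕ → Multiset ℂ} (h1 : ∀ s, IsWeil (Y s) (d s) v (β s))
    (h2 : ∀ s, ∀ k ≤ 2 * d s, ¬ h ∣ k → β s k = 0)
    (h3 : ∀ s, ∀ k ≤ 2 * d s, 2 * h ∣ k →
      (μ s k : ℝ) * (Ideal.absNorm v.asIdeal : ℝ) ^ ((k : ℝ) / 2) ≤ (β s k).sum.re)
    (h4 : ∀ s t, ∀ k ≤ 2 * d s, ∀ l ≤ 2 * d t, ¬ 2 * h ∣ k → ¬ 2 * h ∣ l →
      0 ≤ (β s k).sum.re * (β t l).sum.re) :
    ∃ ε : ℝ, ε ^ 2 = 1 ∧ ∀ s, Dom ε h (ur (Y s) (d s) v)
      ((∑ k ∈ Finset.range (2 * d s + 1), if 2 * h ∣ k then monomial k (μ s k) else 0 : ℕ[X]).map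
        (Nat.castRingHom ℝ)) := by
  classical
  have hq := qv_pos v
  obtain ⟨ε, e1, e2⟩ : ∃ ε : ℝ, ε ^ 2 = 1 ∧ ∀ s, ∀ k ≤ 2 * d s, ¬ 2 * h ∣ k →
      0 ≤ ε * (β s k).sum.re := by
    by_cases hex : ∃ s, ∃ k ≤ 2 * d s, ¬ 2 * h ∣ k ∧ (β s k).sum.re < 0
    · obtain ⟨s, k, hk1, hk2, hk3⟩ := hex
      refine ⟨-1, by norm_num, fun t l hl hl2 => ?_⟩
      have := h4 s t k hk1 l hl hk2 hl2
      by_contra h0
      push Not at h0
      have h5 : 0 < (β t l).sum.re := by linarith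
      nlinarith
    · push Not at hex
      exact ⟨1, by norm_num, fun s k hk hk2 => by rw [one_mul]; exact hex s k hk hk2⟩
  refine ⟨ε, e1, fun s k => ?_⟩
  have hM : (((∑ k ∈ Finset.range (2 * d s + 1), if 2 * h ∣ k then monomial k (μ s k) else 0 :
      ℕ[X]).map (Nat.castRingHom ℝ))).coeff k =
      if k ≤ 2 * d s ∧ 2 * h ∣ k then (μ s k : ℝ) else 0 := by
    rw [coeff_map, finset_sum_coeff]
    have e3 : ∀ j ∈ Finset.range (2 * d s + 1),
        (if 2 * h ∣ j then monomial j (μ s j) else 0 : ℕ[X]).coeff k =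
        if j = k then (if 2 * h ∣ k then μ s k else 0) else 0 := by
      intro j _
      by_cases hj : j = k
      · subst hj
        rw [if_pos rfl]
        split_ifs
        · rw [coeff_monomial, if_pos rfl]
        · rw [coeff_zero]
      · rw [if_neg hj]
        split_ifs
        · rw [coeff_monomial, if_neg hj]
        · rw [coeff_zero]
    rw [Finset.sum_congr rfl e3, Finset.sum_ite_eq']
    by_cases hk : k ≤ 2 * d s
    · rw [if_pos (Finset.mem_range.2 (by omega))]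
      by_cases hk2 : 2 * h ∣ k
      · rw [if_pos hk2, if_pos ⟨hk, hk2⟩]
        rfl
      · rw [if_neg hk2, if_neg (fun h0 => hk2 h0.2)]
        simp
    · rw [if_neg (fun h0 => hk (by have := Finset.mem_range.1 h0; omega)),
        if_neg (fun h0 => hk h0.1)]
      simp
  rw [hM, coeff_ur]
  have hbt : k ≤ 2 * d s → bt (Y s) (d s) v k = β s k := fun hk => (bt_spec (h1 s)).2.2 k hk
  refine ⟨fun hk => ?_, ?_, ?_⟩
  · split_ifs with hk2
    · rw [hbt hk2, h2 s k hk2 hk]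
      simp
    · rfl
  · split_ifs
    · positivity
    · exact le_rfl
  · by_cases hk : k ≤ 2 * d s
    · rw [if_pos hk, hbt hk]
      have hqq : (qv v) ^ ((k : ℝ) / 2) * (qv v) ^ (-((k : ℝ) / 2)) = 1 := by
        rw [← Real.rpow_add hq, add_neg_cancel, Real.rpow_zero]
      have hqp : 0 < (qv v) ^ (-((k : ℝ) / 2)) := Real.rpow_pos_of_pos hq _
      by_cases hk2 : 2 * h ∣ k
      · rw [if_pos ⟨hk, hk2⟩]
        obtain ⟨x, hx⟩ := hk2
        have hε : ε ^ (k / h) = 1 := by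
          rw [hx, show 2 * h * x = h * (2 * x) by ring, Nat.mul_div_cancel_left _ hh, pow_mul, e1,
            one_pow]
        rw [hε, one_mul]
        have h5 := h3 s k hk ⟨x, hx⟩
        calc (μ s k : ℝ) = (μ s k : ℝ) * (qv v) ^ ((k : ℝ) / 2) * (qv v) ^ (-((k : ℝ) / 2)) := by
              rw [mul_assoc, hqq, mul_one]
          _ ≤ _ := mul_le_mul_of_nonneg_right h5 hqp.le
      · rw [if_neg (fun h0 => hk2 h0.2)]
        by_cases hk3 : h ∣ k
        · obtain ⟨x, hx⟩ := hk3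
          have hodd : ¬ Even x := by
            rintro ⟨y, hy⟩
            apply hk2
            exact ⟨y, by rw [hx, hy]; ring⟩
          rw [Nat.not_even_iff_odd] at hodd
          obtain ⟨y, hy⟩ := hodd
          have hε : ε ^ (k / h) = ε := by
            rw [hx, Nat.mul_div_cancel_left _ hh, hy, pow_succ, pow_mul, e1, one_pow, one_mul]
          rw [hε, ← mul_assoc]
          exact mul_nonneg (e2 s k hk hk2) hqp.le
        · rw [h2 s k hk hk3]
          simp
    · rw [if_neg hk, if_neg (fun h0 => hk h0.1), mul_zero]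

/-- **All powers, all degrees divisible by `2 h`.** -/
theorem main_sign {h : ℕ} (hh : 0 < h) {μ : Fin r → ℕ → ℕ} (hY : IsSigned Y d h μ) {i : ℕ}
    (hi : 2 * h ∣ i) {m : ℤ} (H : Ord Y d n ((i : ℤ) - dim d n) m) :
    m ≤ -((Lower d n h μ).coeff i : ℤ) := by
  obtain ⟨T, b, hT, hb, hv⟩ := ord_mean' (hY.mono fun v hv s => by
    obtain ⟨β, h1, _⟩ := hv
    exact ⟨β s, h1 s⟩) H
  have h1 : ((Lower d n h μ).coeff i : ℝ) ≤ -(m : ℝ) := by
    refine hT.lower hb ?_
    filter_upwards [hv, hY] with v g1 g2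
    obtain ⟨β, k1, k2, k3, k4⟩ := g2
    obtain ⟨ε, e1, e2⟩ := dom_prime hh k1 k2 k3 k4
    have e3 := (Dom.prod Finset.univ hh n (fun s _ => e2 s) i).2.2
    rw [add_sub_cancel] at g1
    have e4 : (∏ s, uu (Y s) (d s) v ^ n s) =
        (∏ s, ur (Y s) (d s) v ^ n s).map (algebraMap ℝ ℂ) := by
      rw [Polynomial.map_prod]
      exact Finset.prod_congr rfl fun s _ => by rw [Polynomial.map_pow, uu_eq (k1 s)]
    rw [e4] at g1
    unfold cz at g1
    rw [if_pos (Int.natCast_nonneg i), Int.toNat_natCast, coeff_map, Complex.coe_algebraMap] at g1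
    have g2 := Complex.ofReal_injective g1
    have hε : ε ^ (i / h) = 1 := by
      obtain ⟨x, hx⟩ := hi
      rw [hx, show 2 * h * x = h * (2 * x) by ring, Nat.mul_div_cancel_left _ hh, pow_mul, e1,
        one_pow]
    rw [hε, one_mul, ← g2] at e3
    refine le_trans (le_of_eq ?_) e3
    have e5 : (∏ s, ((∑ k ∈ Finset.range (2 * d s + 1),
        if 2 * h ∣ k then monomial k (μ s k) else 0 : ℕ[X]).map (Nat.castRingHom ℝ)) ^ n s) =
        (Lower d n h μ).map (Nat.castRingHom ℝ) := by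
      unfold Lower
      rw [Polynomial.map_prod]
      exact Finset.prod_congr rfl fun s _ => by rw [Polynomial.map_pow]
    rw [e5, coeff_map]
    rfl
  have h2 : ((Lower d n h μ).coeff i : ℤ) ≤ -m := by exact_mod_cast h1
  omega

end

end Pool.Agent.K4H65.EP
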