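import Pool.Agent.K4H65.EP.Defs
import Pool.Agent.K4H65.EP.Mean
import Pool.Agent.K4H65.EP.Mult
import Pool.Agent.K4H65.EP.Circle

/-! The traces of Frobenius on products. -/

set_option autoImplicit false

namespace Pool.Agent.K4H65.EP

open Complex Filter Topology ComplexConjugate NumberField IsDedekindDomain Polynomial
open Pool.Agent.W540.BE (nm)
open Pool.Agent.W353.PV (Eig mult_unique one_lt_norm exists_ext alp tF)
open Pool.Agent.W353.L1 (tr)
open Pool.Agent.W353.EF (cone)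

section
variable {K : Type} [Field K] [NumberField K]

/-- the norm of a prime -/
noncomputable abbrev qv (v : HeightOneSpectrum (𝓞 K)) : ℝ := (Ideal.absNorm v.asIdeal : ℝ)

theorem qv_pos (v : HeightOneSpectrum (𝓞 K)) : 0 < qv v := by
  have := one_lt_norm v
  linarith

theorem comp_id' {κ : Type} [Field κ] (φ : 𝓞 K →+* κ) :
    φ.comp (algebraMap (𝓞 K) (𝓞 K)) = φ := RingHom.ext fun _ => rfl

/-- the cardinalities -/
theorem cast_sub_one (v : HeightOneSpectrum (𝓞 K)) {e : ℕ} (he : 1 ≤ e) :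
    ((Ideal.absNorm v.asIdeal ^ e - 1 : ℕ) : ℂ) = (Ideal.absNorm v.asIdeal : ℂ) ^ e - 1 ∧
      (Ideal.absNorm v.asIdeal : ℂ) ^ e - 1 ≠ 0 := by
  have h1 : (1 : ℝ) < qv v ^ e := one_lt_pow₀ (one_lt_norm v) (by omega)
  have h2 : 1 < Ideal.absNorm v.asIdeal ^ e := by exact_mod_cast h1
  constructor
  · rw [Nat.cast_sub h2.le]
    push_cast
    ring
  · intro h5
    have h6 : ((Ideal.absNorm v.asIdeal : ℂ) ^ e) = 1 := sub_eq_zero.1 h5
    have h7 : ((Ideal.absNorm v.asIdeal : ℝ) ^ e) = 1 := by exact_mod_cast h6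
    linarith

theorem weil_unique {n : ℕ} {X : Set (MvPolynomial (Fin n) (𝓞 K))} {d : ℕ}
    {v : HeightOneSpectrum (𝓞 K)} {β γ : ℕ → Multiset ℂ} (h : IsWeil X d v β)
    (h' : IsWeil X d v γ) {k : ℕ} (hk : k ≤ 2 * d) : β k = γ k := by
  refine mult_unique (D := 2 * d + 1) (one_lt_norm v) h.1 h'.1 (fun e he => ?_) (by omega)
  obtain ⟨κ, _, _, φ, h1, h2⟩ := exists_ext v e he
  have e1 := h.2 κ φ e h1 h2
  rw [h'.2 κ φ e h1 h2] at e1
  exact (mul_left_cancel₀ (cast_sub_one v he).2 e1).symm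

/-- the cut off -/
def cut (d : ℕ) (β : ℕ → Multiset ℂ) (k : ℕ) : Multiset ℂ := if k ≤ 2 * d then β k else 0

theorem weil_cut {n : ℕ} {X : Set (MvPolynomial (Fin n) (𝓞 K))} {d : ℕ}
    {v : HeightOneSpectrum (𝓞 K)} {β : ℕ → Multiset ℂ} (h : IsWeil X d v β) :
    IsWeil X d v (cut d β) := by
  refine ⟨fun k z hz => ?_, fun κ _ _ φ e h1 h2 => ?_⟩
  · unfold cut at hz
    split_ifs at hz
    · exact h.1 k z hz
    · exact absurd hz (Multiset.notMem_zero z)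
  · rw [h.2 κ φ e h1 h2]
    congr 1
    refine Finset.sum_congr rfl fun k hk => ?_
    unfold cut
    rw [if_pos (by have := Finset.mem_range.1 hk; omega)]

theorem good_cut {n : ℕ} {X : Set (MvPolynomial (Fin n) (𝓞 K))} {d : ℕ}
    {v : HeightOneSpectrum (𝓞 K)} {β : ℕ → Multiset ℂ} (h : IsWeil X d v β) :
    Good (qv v) d (cut d β) :=
  ⟨(weil_cut h).1, fun k hk => by unfold cut; rw [if_neg (by omega)]⟩

open Classical in
/-- the chosen eigenvalues -/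
noncomputable def bt {n : ℕ} (X : Set (MvPolynomial (Fin n) (𝓞 K))) (d : ℕ)
    (v : HeightOneSpectrum (𝓞 K)) : ℕ → Multiset ℂ :=
  if h : ∃ β, IsWeil X d v β then cut d h.choose else fun _ => 0

theorem bt_spec {n : ℕ} {X : Set (MvPolynomial (Fin n) (𝓞 K))} {d : ℕ}
    {v : HeightOneSpectrum (𝓞 K)} {β : ℕ → Multiset ℂ} (h : IsWeil X d v β) :
    IsWeil X d v (bt X d v) ∧ Good (qv v) d (bt X d v) ∧ ∀ k ≤ 2 * d, bt X d v k = β k := by
  have h0 : ∃ β, IsWeil X d v β := ⟨β, h⟩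
  have e : bt X d v = cut d h0.choose := by unfold bt; rw [dif_pos h0]
  rw [e]
  refine ⟨weil_cut h0.choose_spec, good_cut h0.choose_spec, fun k hk => ?_⟩
  exact weil_unique (weil_cut h0.choose_spec) h hk

/-- the normalised traces -/
noncomputable def uu {n : ℕ} (X : Set (MvPolynomial (Fin n) (𝓞 K))) (d : ℕ)
    (v : HeightOneSpectrum (𝓞 K)) : ℂ[X] :=
  pol 1 (((qv v) ^ (-(1 / 2) : ℝ) : ℝ) : ℂ) (bt X d v) d

theorem rpow_half_pow {q : ℝ} (hq : 0 < q) (k : ℕ) :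
    (q ^ (-(1 / 2) : ℝ)) ^ k = q ^ (-((k : ℝ) / 2)) := by
  rw [← Real.rpow_natCast, ← Real.rpow_mul hq.le]
  congr 1
  ring

/-- **Duality.** -/
theorem uu_pal {n : ℕ} {X : Set (MvPolynomial (Fin n) (𝓞 K))} {d : ℕ}
    {v : HeightOneSpectrum (𝓞 K)} {β : ℕ → Multiset ℂ} (h : IsWeil X d v β)
    (hd : ∀ k ≤ 2 * d, β (2 * d - k) = (β k).map fun z => (Ideal.absNorm v.asIdeal : ℂ) ^ d / z) :
    Pal d (uu X d v) := by
  obtain ⟨h1, h2, h3⟩ := bt_spec h
  have hq := qv_pos v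
  refine Pal.of_coeff (natDegree_pol _ _ _ _) fun k hk => ?_
  unfold uu
  rw [coeff_pol _ _ h2.2, coeff_pol _ _ h2.2, h3 _ (by omega), h3 k hk, hd k hk, pe_apply, pe_apply,
    Multiset.map_map, map_mul, map_multiset_sum, Multiset.map_map, ← Complex.ofReal_pow,
    ← Complex.ofReal_pow, Complex.conj_ofReal, rpow_half_pow hq, rpow_half_pow hq,
    ← Multiset.sum_map_mul_right, ← Multiset.sum_map_mul_right]
  congr 1
  refine Multiset.map_congr rfl fun z hz => ?_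
  have hz1 := h.1 k z hz
  have hz0 : z ≠ 0 := by
    intro h0
    rw [h0, norm_zero] at hz1
    exact (Real.rpow_pos_of_pos hq _).ne hz1
  have e1 : conj z = ((qv v ^ (k : ℝ) : ℝ) : ℂ) / z := by
    rw [eq_div_iff hz0, mul_comm, Complex.mul_conj, Complex.normSq_eq_norm_sq, hz1,
      ← Real.rpow_natCast, ← Real.rpow_mul hq.le]
    congr 2
    push_cast
    ring
  have e2 : (Ideal.absNorm v.asIdeal : ℂ) ^ d = ((qv v ^ (d : ℝ) : ℝ) : ℂ) := by
    rw [Real.rpow_natCast]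
    push_cast
    rfl
  simp only [Function.comp_apply, pow_one]
  rw [e1, e2, div_mul_eq_mul_div, div_mul_eq_mul_div, ← Complex.ofReal_mul, ← Complex.ofReal_mul,
    ← Real.rpow_add hq, ← Real.rpow_add hq]
  congr 3
  rw [Nat.cast_sub hk]
  push_cast
  ring

theorem uu_mon {n : ℕ} {X : Set (MvPolynomial (Fin n) (𝓞 K))} {d : ℕ}
    {v : HeightOneSpectrum (𝓞 K)} {β γ : ℕ → Multiset ℂ} (h : IsWeil X d v β)
    (hd : ∀ k ≤ 2 * d, β (2 * d - k) = (β k).map fun z => (Ideal.absNorm v.asIdeal : ℂ) ^ d / z)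
    (h' : IsWeil X d v γ) (h0 : γ 0 = {1}) : Mon d (uu X d v) := by
  obtain ⟨h1, h2, h3⟩ := bt_spec h
  have hq := qv_pos v
  have h4 : β 0 = {1} := by rw [← h0]; exact weil_unique h h' (Nat.zero_le _)
  unfold uu
  refine ⟨?_, ?_⟩
  · rw [coeff_pol _ _ h2.2, h3 0 (Nat.zero_le _), h4, pe_apply]
    simp
  · have h5 := hd 0 (Nat.zero_le _)
    rw [Nat.sub_zero, h4] at h5
    rw [coeff_pol _ _ h2.2, h3 _ le_rfl, h5, pe_apply]
    simp only [Multiset.map_singleton, Multiset.sum_singleton, div_one, pow_one]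
    rw [← Complex.ofReal_pow, rpow_half_pow hq]
    have e2 : (Ideal.absNorm v.asIdeal : ℂ) ^ d = ((qv v ^ (d : ℝ) : ℝ) : ℂ) := by
      rw [Real.rpow_natCast]
      push_cast
      rfl
    rw [e2, ← Complex.ofReal_mul, ← Real.rpow_add hq]
    have e3 : (d : ℝ) + -(((2 * d : ℕ) : ℝ) / 2) = 0 := by push_cast; ring
    rw [e3, Real.rpow_zero, Complex.ofReal_one]

/-- **The eigenvalues of a product.** -/
theorem weil_prod {r : ℕ} {a : Fin r → ℕ} {Y : (s : Fin r) → Set (MvPolynomial (Fin (a s)) (𝓞 K))}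
    {d n : Fin r → ℕ} {b : ℕ} {W : Set (MvPolynomial (Fin b) (𝓞 K))}
    {v : HeightOneSpectrum (𝓞 K)}
    (hW : ∀ (κ : Type) [Field κ] [Finite κ] (φ : 𝓞 K →+* κ), RingHom.ker φ = v.asIdeal →
      cone W φ * ∏ s, (Nat.card κ - 1) ^ n s = (Nat.card κ - 1) * ∏ s, cone (Y s) φ ^ n s)
    {β : Fin r → ℕ → Multiset ℂ} (hβ : ∀ s, IsWeil (Y s) (d s) v (β s))
    (hg : ∀ s, Good (qv v) (d s) (β s)) :
    ∃ δ, Good (qv v) (dim d n) δ ∧ IsWeil W (dim d n) v δ ∧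
      ∀ e x, pol e x δ (dim d n) = ∏ s, pol e x (β s) (d s) ^ n s := by
  obtain ⟨δ, h1, h2⟩ := exists_prod (qv_pos v) Finset.univ (fun s _ => hg s) n
  refine ⟨δ, h1, ⟨h1.1, ?_⟩, h2⟩
  intro κ _ _ φ e hk hc
  have he : 1 ≤ e := by
    by_contra h
    have h0 : e = 0 := by omega
    rw [h0, pow_zero] at hc
    have := Finite.one_lt_card (α := κ)
    omega
  obtain ⟨c1, c2⟩ := cast_sub_one v he
  have h3 := congrArg (Nat.cast : ℕ → ℂ) (hW κ φ hk)
  rw [hc, Nat.cast_mul, Nat.cast_mul, Nat.cast_prod, Nat.cast_prod] at h3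
  simp only [Nat.cast_pow, c1] at h3
  simp only [← Nat.cast_pow] at h3
  have h4 : ∀ s, (cone (Y s) φ : ℂ) = ((Ideal.absNorm v.asIdeal : ℂ) ^ e - 1) *
      (pol e 1 (β s) (d s)).eval (-1) := fun s => by
    rw [eval_pol]
    exact (hβ s).2 κ φ e hk hc
  rw [← eval_pol, show (∑ s, n s * d s) = dim d n from rfl] at *
  rw [h2, eval_prod]
  simp only [Nat.cast_pow, eval_pow] at h3 ⊢
  simp only [h4, mul_pow, Finset.prod_mul_distrib] at h3
  have h5 : (∏ s : Fin r, ((Ideal.absNorm v.asIdeal : ℂ) ^ e - 1) ^ n s) ≠ 0 :=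
    Finset.prod_ne_zero_iff.2 fun s _ => pow_ne_zero _ c2
  refine mul_right_cancel₀ h5 ?_
  rw [h3]
  ring

/-- **The trace formula.** -/
theorem tF_prod {r : ℕ} {a : Fin r → ℕ} {Y : (s : Fin r) → Set (MvPolynomial (Fin (a s)) (𝓞 K))}
    {d n : Fin r → ℕ} {b : ℕ} {W : Set (MvPolynomial (Fin b) (𝓞 K))}
    {v : HeightOneSpectrum (𝓞 K)}
    (hW : ∀ (κ : Type) [Field κ] [Finite κ] (φ : 𝓞 K →+* κ), RingHom.ker φ = v.asIdeal →
      cone W φ * ∏ s, (Nat.card κ - 1) ^ n s = (Nat.card κ - 1) * ∏ s, cone (Y s) φ ^ n s)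
    (hβ : ∀ s, ∃ β, IsWeil (Y s) (d s) v β) {i N : ℕ} (hi : i ≤ 2 * dim d n) {α : Fin N → ℂ}
    (hα : Eig W (dim d n) i v α) :
    ((tF W (dim d n) i N K v : ℝ) : ℂ) = (∏ s, uu (Y s) (d s) v ^ n s).coeff i := by
  obtain ⟨δ, h1, h2, h3⟩ := weil_prod (n := n) hW (β := fun s => bt (Y s) (d s) v)
    (fun s => (bt_spec (hβ s).choose_spec).1) (fun s => (bt_spec (hβ s).choose_spec).2.1)
  have h4 := alp_good hα
  have h5 : Finset.univ.val.map (alp W (dim d n) i N K v) = δ i := by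
    obtain ⟨γ, g1, g2, g3⟩ := h4
    rw [← g1]
    exact weil_unique (v := v) (X := W) ⟨g2, fun κ _ _ φ e hk hc => by
      refine Eq.trans (congrArg (Nat.cast : ℕ → ℂ) (congrArg (cone W) (RingHom.ext fun x => ?_)))
        (g3 κ φ e hk hc)
      rfl⟩ h2 hi
  have hcoe : (∏ s, uu (Y s) (d s) v ^ n s).coeff i =
      pe 1 (δ i) * ((((qv v) ^ (-(1 / 2) : ℝ) : ℝ) : ℂ)) ^ i := by
    rw [← coeff_pol 1 _ h1.2, h3]
    rfl
  have hsum : pe 1 (δ i) = ∑ j, alp W (dim d n) i N K v j := by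
    rw [← h5, pe_apply, Multiset.map_map]
    simp only [Function.comp_def, pow_one]
    rfl
  have him := h4.im hi
  unfold tF tr
  rw [if_pos ⟨fun j => h4.norm j, him⟩, hcoe, hsum, ← Complex.ofReal_pow, rpow_half_pow (qv_pos v),
    Complex.ofReal_mul]
  congr 1
  exact Complex.ext (by simp) (by rw [Complex.ofReal_im, him])

theorem uu_deg {n : ℕ} (X : Set (MvPolynomial (Fin n) (𝓞 K))) (d : ℕ)
    (v : HeightOneSpectrum (𝓞 K)) : (uu X d v).natDegree ≤ 2 * d := natDegree_pol _ _ _ _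

theorem prod_deg {r : ℕ} {a : Fin r → ℕ} (Y : (s : Fin r) → Set (MvPolynomial (Fin (a s)) (𝓞 K)))
    (d n : Fin r → ℕ) (v : HeightOneSpectrum (𝓞 K)) :
    (∏ s, uu (Y s) (d s) v ^ n s).natDegree ≤ 2 * dim d n := by
  refine (natDegree_prod_le _ _).trans ?_
  unfold dim
  rw [Finset.mul_sum]
  refine Finset.sum_le_sum fun s _ => ?_
  refine natDegree_pow_le.trans ?_
  calc n s * (uu (Y s) (d s) v).natDegree ≤ n s * (2 * d s) :=
        Nat.mul_le_mul_left _ (uu_deg _ _ _)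
    _ = _ := by ring

/-- the mean value of an order -/
theorem ord_mean {r : ℕ} {a : Fin r → ℕ} {Y : (s : Fin r) → Set (MvPolynomial (Fin (a s)) (𝓞 K))}
    {d n : Fin r → ℕ} {j m : ℤ} (hY : ∀ s, IsSmooth (Y s) (d s)) (h : Ord Y d n j m) :
    ∃ (T : HeightOneSpectrum (𝓞 K) → ℝ) (b : ℝ), Mean T (-(m : ℝ)) ∧ (∀ v, |T v| ≤ b) ∧
      ∀ᶠ v in cofinite, (T v : ℂ) = cz (∏ s, uu (Y s) (d s) v ^ n s) (dim d n + j) := by
  rcases h with ⟨h1, h2⟩ | ⟨b, W, i, N, h1, h2, h3, h4⟩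
  · refine ⟨fun _ => 0, 0, ?_, fun v => by simp, Eventually.of_forall fun v => ?_⟩
    · rw [h2, Int.cast_zero, neg_zero]
      exact Mean.zero
    · unfold cz
      have h5 := prod_deg Y d n v
      split_ifs with h6
      · rw [coeff_eq_zero_of_natDegree_lt]
        · rfl
        · rcases abs_cases j with ⟨h7, h8⟩ | ⟨h7, h8⟩ <;> omega
      · rfl
  · obtain ⟨inst, B, hB, Λ, hΛ, hΛL, hm⟩ := h4
    refine ⟨fun v => tF W (dim d n) i N K v, N, ?_, fun v => abs_tF_le v, ?_⟩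
    · exact mean_ord h3 B hB.1 hB.2 hΛ hΛL hm
    · have hall : ∀ᶠ v : HeightOneSpectrum (𝓞 K) in cofinite, ∀ s, ∃ β, IsWeil (Y s) (d s) v β := by
        rw [Filter.eventually_all]
        exact fun s => (hY s).mono fun v hv => ⟨hv.choose, hv.choose_spec.1⟩
      filter_upwards [h1, hall, hB.1] with v k1 k2 k3
      obtain ⟨α, k4, _⟩ := k3
      rw [tF_prod k1 k2 h3 k4]
      unfold cz
      rw [if_pos (by omega), show ((dim d n : ℤ) + j).toNat = i by omega]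

end

end Pool.Agent.K4H65.EP
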